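import Pool.Agent.QC.Plane.Glue

/-!
# MP_7c50a9_lc: plane systems in small squares; filling of squares
-/

set_option autoImplicit false

open Set Metric Filter Topology

namespace Pool.Agent.QC

/-- The open square with centre `c`. -/
def sqc (c : ℂ) (R : ℝ) : Set ℂ := {z | |z.re - c.re| < R ∧ |z.im - c.im| < R}

/-- The closed square with centre `c`. -/
def csqc (c : ℂ) (R : ℝ) : Set ℂ := {z | |z.re - c.re| ≤ R ∧ |z.im - c.im| ≤ R}

lemma sqc_eq (c : ℂ) (R : ℝ) : sqc c R = (fun z : ℂ => z - c) ⁻¹' sq R := by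
  ext z
  simp [sqc, sq]

lemma csqc_eq (c : ℂ) (R : ℝ) : csqc c R = (fun z : ℂ => z - c) ⁻¹' csq R := by
  ext z
  simp [csqc, csq]

lemma continuous_sub_c (c : ℂ) : Continuous (fun z : ℂ => z - c) := by fun_prop

lemma isOpen_sqc (c : ℂ) (R : ℝ) : IsOpen (sqc c R) := by
  rw [sqc_eq]
  exact (isOpen_sq R).preimage (continuous_sub_c c)

lemma isClosed_csqc (c : ℂ) (R : ℝ) : IsClosed (csqc c R) := by
  rw [csqc_eq]
  exact (isClosed_csq R).preimage (continuous_sub_c c)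

lemma isOpen_tr {U : Set ℂ} (hU : IsOpen U) (c : ℂ) : IsOpen ((fun z : ℂ => z - c) ⁻¹' U) :=
  hU.preimage (continuous_sub_c c)

lemma convex_tr {U : Set ℂ} (hU : Convex ℝ U) (c : ℂ) :
    Convex ℝ ((fun z : ℂ => z - c) ⁻¹' U) := by
  intro x hx y hy a b ha hb hab
  have h := hU hx hy ha hb hab
  simp only [mem_preimage] at h ⊢
  have e : a • x + b • y - c = a • (x - c) + b • (y - c) := by
    have : (c : ℂ) = a • c + b • c := by rw [← add_smul, hab, one_smul]
    rw [smul_sub, smul_sub]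
    nth_rewrite 1 [this]
    abel
  rw [e]
  exact h

lemma tr_ball (c w : ℂ) (ε : ℝ) : (fun z : ℂ => z - c) ⁻¹' ball w ε = ball (w + c) ε := by
  ext z
  simp only [mem_preimage, mem_ball, dist_eq_norm]
  rw [show z - c - w = z - (w + c) by ring]

namespace PlaneSys

variable {F : Type*} [AddCommGroup F] [Module ℂ F] (C : PlaneSys F)

/-- The system in a small square with centre `c`. -/
def small (c : ℂ) (ρ0 ρ1 : ℝ) (h0 : 0 < ρ0) (h1 : ρ0 < ρ1) (hsub : sqc c ρ1 ⊆ sq C.R1)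
    (hS : ∀ w ∈ C.S, w ∈ sqc c ρ1 → w ∈ sqc c ρ0) : PlaneSys F where
  R0 := ρ0
  R1 := ρ1
  hR0 := h0
  hR := h1
  S := {z | z + c ∈ C.S ∧ z ∈ sq ρ1}
  S_fin := by
    refine (C.S_fin.preimage (f := fun z : ℂ => z + c) (fun x _ y _ h => by simpa using h)).subset ?_
    intro z hz
    exact hz.1
  S_sub := by
    rintro w ⟨hw1, hw2⟩
    have := hS (w + c) hw1 (by rw [sqc_eq]; simpa using hw2)
    rw [sqc_eq] at this
    have h3 : w + c - c ∈ sq ρ0 := this
    rw [add_sub_cancel_right] at h3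
    exact h3
  ι := C.ι
  ev := C.ev
  ev_inj := C.ev_inj
  Sol := fun U g => C.Sol ((fun z : ℂ => z - c) ⁻¹' U) (fun z => g (z - c))
  diff := by
    intro U g hU hg i
    have h := C.diff (isOpen_tr hU c) hg i
    have h2 : DifferentiableOn ℂ ((fun z => C.ev i (g (z - c))) ∘ (fun z : ℂ => z + c)) U :=
      h.comp (by fun_prop) (fun z hz => by simpa using hz)
    simpa [Function.comp_def] using h2
  mono := fun hU hUV hg => C.mono (isOpen_tr hU c) (preimage_mono hUV) hg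
  congr := fun hU hg h => C.congr (isOpen_tr hU c) hg (fun _ hz => h hz)
  local' := by
    intro U g hU h
    refine C.local' (isOpen_tr hU c) fun z hz => ?_
    obtain ⟨V, h1, h2, h3, h4⟩ := h (z - c) hz
    exact ⟨(fun z : ℂ => z - c) ⁻¹' V, isOpen_tr h1 c, h2, preimage_mono h3, h4⟩
  comb := fun a b hU hg hg' => C.comb a b (isOpen_tr hU c) hg hg'
  zero := fun hU => C.zero (isOpen_tr hU c)
  ext := by
    intro U V g hU hc hR hS' hV hcV hVU hne hg
    have hR' : (fun z : ℂ => z - c) ⁻¹' U ⊆ sq C.R1 := by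
      refine Subset.trans ?_ hsub
      rw [sqc_eq]
      exact preimage_mono hR
    obtain ⟨g', h1, h2⟩ := C.ext (isOpen_tr hU c) (convex_tr hc c) hR'
      (Set.disjoint_left.mpr fun z hz hzS => by
        refine Set.disjoint_left.mp hS' hz ⟨?_, hR hz⟩
        simpa using hzS) (isOpen_tr hV c)
      (convex_tr hcV c) (preimage_mono hVU) (by
        obtain ⟨z, hz⟩ := hne
        exact ⟨z + c, by simpa using hz⟩) hg
    refine ⟨fun z => g' (z + c), by simpa using h1, fun z hz => ?_⟩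
    have := h2 (show z + c ∈ (fun z : ℂ => z - c) ⁻¹' V by simpa using hz)
    simpa using this
  fill := by
    intro w ε g hw hε hb hS' hg
    have hp : (fun z : ℂ => z - c) ⁻¹' (ball w ε \ {w}) = ball (w + c) ε \ {w + c} := by
      rw [preimage_sdiff, tr_ball]
      congr 1
      ext z
      simp [sub_eq_iff_eq_add]
    have hb' : ball (w + c) ε ⊆ sq C.R1 := by
      refine Subset.trans ?_ hsub
      rw [sqc_eq, ← tr_ball]
      exact preimage_mono hb
    obtain ⟨g', h1, h2⟩ := C.fill (w := w + c) (ε := ε) (g := fun z => g (z - c)) hw.1 hε hb'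
      (by
        ext z
        constructor
        · rintro ⟨hz1, hz2⟩
          have h3 : z - c ∈ ball w ε ∩ {z | z + c ∈ C.S ∧ z ∈ sq ρ1} := by
            have h4 : z - c ∈ ball w ε := by
              rw [← tr_ball] at hz1
              exact hz1
            exact ⟨h4, by simpa using hz2, hb h4⟩
          rw [hS'] at h3
          have h4 : z - c = w := h3
          rw [mem_singleton_iff, ← h4]
          ring
        · rintro rfl
          exact ⟨mem_ball_self hε, hw.1⟩)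
      (by rw [← hp]; exact hg)
    refine ⟨fun z => g' (z + c), ?_, fun z hz => ?_⟩
    · rw [tr_ball]
      simpa using h1
    · have := h2 (show z + c ∈ ball (w + c) ε \ {w + c} by rw [← hp]; simpa using hz)
      simpa using this
  rank1 := by
    intro w ε V g g' hw hε hb hS' hV hcV hVb hwV hne hg hg'
    have hb' : ball (w + c) ε ⊆ sq C.R1 := by
      refine Subset.trans ?_ hsub
      rw [sqc_eq, ← tr_ball]
      exact preimage_mono hb
    obtain ⟨a, b, hab, k, h1, h2⟩ := C.rank1 (w := w + c) (ε := ε)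
      (V := (fun z : ℂ => z - c) ⁻¹' V)
      (g := fun z => g (z - c)) (g' := fun z => g' (z - c)) hw.1 hε hb'
      (by
        ext z
        constructor
        · rintro ⟨hz1, hz2⟩
          have h3 : z - c ∈ ball w ε ∩ {z | z + c ∈ C.S ∧ z ∈ sq ρ1} := by
            have h4 : z - c ∈ ball w ε := by
              rw [← tr_ball] at hz1
              exact hz1
            exact ⟨h4, by simpa using hz2, hb h4⟩
          rw [hS'] at h3
          have h4 : z - c = w := h3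
          rw [mem_singleton_iff, ← h4]
          ring
        · rintro rfl
          exact ⟨mem_ball_self hε, hw.1⟩)
      (isOpen_tr hV c) (convex_tr hcV c)
      (by rw [← tr_ball]; exact preimage_mono hVb) (by simpa using hwV)
      (by
        obtain ⟨z, hz⟩ := hne
        exact ⟨z + c, by simpa using hz⟩) hg hg'
    refine ⟨a, b, hab, fun z => k (z + c), ?_, fun z hz => ?_⟩
    · rw [tr_ball]
      simpa using h1
    · have := h2 (show z + c ∈ (fun z : ℂ => z - c) ⁻¹' V by simpa using hz)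
      simpa using this

/-- A solution on a square annulus around exactly one singular point fills in. -/
theorem fill_square {c w : ℂ} {ρ0 ρ1 : ℝ} (h0 : 0 < ρ0) (h1 : ρ0 < ρ1)
    (hsub : sqc c ρ1 ⊆ sq C.R1) (hw : w ∈ C.S) (hwc : w ∈ sqc c ρ0)
    (hS : ∀ x ∈ C.S, x ∈ sqc c ρ1 → x = w) {g : ℂ → F} (hg : C.Sol (sqc c ρ1 \ csqc c ρ0) g) :
    ∃ g', C.Sol (sqc c ρ1) g' ∧ EqOn g' g (sqc c ρ1 \ csqc c ρ0) := by
  set C' := C.small c ρ0 ρ1 h0 h1 hsub (fun x hx hx' => by rw [hS x hx hx']; exact hwc) with hC'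
  have e1 : (fun z : ℂ => z - c) ⁻¹' (sq ρ1 \ csq ρ0) = sqc c ρ1 \ csqc c ρ0 := by
    rw [preimage_sdiff, sqc_eq, csqc_eq]
  have hJ : C'.Sol C'.ann (fun z => g (z + c)) := by
    change C.Sol ((fun z : ℂ => z - c) ⁻¹' (sq ρ1 \ csq ρ0)) (fun z => g (z - c + c))
    rw [e1]
    simpa using hg
  have hwρ : w - c ∈ sq ρ0 := by rw [sqc_eq] at hwc; exact hwc
  have hwS : w - c ∈ C'.S := ⟨by simpa using hw, ⟨hwρ.1.trans h1, hwρ.2.trans h1⟩⟩
  have huniq : ∀ x ∈ C'.S, x = w - c := by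
    rintro x ⟨hx1, hx2⟩
    have := hS (x + c) hx1 (by rw [sqc_eq]; simpa using hx2)
    rw [← this]
    ring
  obtain ⟨g', hg1, hg2⟩ := C'.extend_all (l₁ := true) (l₂ := true) hJ hwS
    (fun x hx _ hne => absurd (huniq x hx) hne)
    (fun x hx hlt => absurd hlt (by rw [huniq x hx]; exact lt_irrefl _))
  refine ⟨fun z => g' (z - c), ?_, fun z hz => ?_⟩
  · have h3 : C.Sol ((fun z : ℂ => z - c) ⁻¹' (sq ρ1)) (fun z => g' (z - c)) := hg1
    rwa [← sqc_eq] at h3
  · have h3 : z - c ∈ C'.ann := by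
      rw [← e1] at hz
      exact hz
    have h4 := hg2 h3
    simpa using h4

/-- Filling of finitely many squares. -/
theorem fill_squares {K : Set ℂ} (hK : IsClosed K) (T : Set ℂ) (hT : T.Finite) {ρ0 ρ1 : ℝ}
    (h0 : 0 < ρ0) (h1 : ρ0 < ρ1) (hsub : ∀ c ∈ T, sqc c ρ1 ⊆ sq C.R1 \ K)
    (hdis : ∀ c ∈ T, ∀ c' ∈ T, c ≠ c' → Disjoint (sqc c ρ1) (sqc c' ρ1))
    (hS : ∀ c ∈ T, ∃ w ∈ C.S, w ∈ sqc c ρ0 ∧ ∀ x ∈ C.S, x ∈ sqc c ρ1 → x = w)
    {g : ℂ → F} (hg : C.Sol ((sq C.R1 \ K) \ ⋃ c ∈ T, csqc c ρ0) g) :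
    ∃ g', C.Sol (sq C.R1 \ K) g' ∧ EqOn g' g ((sq C.R1 \ K) \ ⋃ c ∈ T, csqc c ρ0) := by
  classical
  have oU : IsOpen (sq C.R1 \ K) := (isOpen_sq _).sdiff hK
  have hN : IsClosed (⋃ c ∈ T, csqc c ρ0) :=
    hT.isClosed_biUnion fun c _ => isClosed_csqc c ρ0
  have hcsub : ∀ c, csqc c ρ0 ⊆ sqc c ρ1 := fun c z hz =>
    ⟨lt_of_le_of_lt hz.1 h1, lt_of_le_of_lt hz.2 h1⟩
  have hann : ∀ c ∈ T, sqc c ρ1 \ csqc c ρ0 ⊆ (sq C.R1 \ K) \ ⋃ c ∈ T, csqc c ρ0 := by
    rintro c hc z ⟨hz1, hz2⟩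
    refine ⟨hsub c hc hz1, ?_⟩
    simp only [mem_iUnion, not_exists]
    intro c' hc' hz3
    by_cases he : c = c'
    · exact hz2 (he ▸ hz3)
    · exact Set.disjoint_left.mp (hdis c hc c' hc' he) hz1 (hcsub c' hz3)
  have hfill : ∀ c ∈ T, ∃ g', C.Sol (sqc c ρ1) g' ∧ EqOn g' g (sqc c ρ1 \ csqc c ρ0) := by
    intro c hc
    obtain ⟨w, hw1, hw2, hw3⟩ := hS c hc
    exact C.fill_square h0 h1 (fun z hz => (hsub c hc hz).1) hw1 hw2 hw3
      (C.mono ((isOpen_sqc _ _).sdiff (isClosed_csqc _ _)) (hann c hc) hg)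
  choose! k hk1 hk2 using hfill
  set G : ℂ → F := fun z => if h : ∃ c ∈ T, z ∈ sqc c ρ1 then k h.choose z else g z with hG
  have e1 : ∀ c ∈ T, EqOn G (k c) (sqc c ρ1) := by
    intro c hc z hz
    have hex : ∃ c ∈ T, z ∈ sqc c ρ1 := ⟨c, hc, hz⟩
    have hcc : hex.choose = c := by
      by_contra hne
      exact Set.disjoint_left.mp (hdis _ hex.choose_spec.1 c hc hne) hex.choose_spec.2 hz
    simp only [hG, dif_pos hex, hcc]
  have e2 : EqOn G g ((sq C.R1 \ K) \ ⋃ c ∈ T, csqc c ρ0) := by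
    intro z hz
    by_cases hex : ∃ c ∈ T, z ∈ sqc c ρ1
    · obtain ⟨c, hc, hzc⟩ := hex
      rw [e1 c hc hzc]
      refine hk2 c hc ⟨hzc, fun h3 => hz.2 ?_⟩
      exact mem_biUnion hc h3
    · simp only [hG, dif_neg hex]
  refine ⟨G, C.local' oU fun z hz => ?_, e2⟩
  by_cases hex : ∃ c ∈ T, z ∈ sqc c ρ1
  · obtain ⟨c, hc, hzc⟩ := hex
    exact ⟨sqc c ρ1, isOpen_sqc _ _, hzc, hsub c hc, C.congr (isOpen_sqc _ _) (hk1 c hc)
      (e1 c hc).symm⟩
  · refine ⟨(sq C.R1 \ K) \ ⋃ c ∈ T, csqc c ρ0, oU.sdiff hN, ⟨hz, fun h3 => hex ?_⟩,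
      sdiff_subset, C.congr (oU.sdiff hN) hg e2.symm⟩
    simp only [mem_iUnion] at h3
    obtain ⟨c, hc, h4⟩ := h3
    exact ⟨c, hc, hcsub c h4⟩

end PlaneSys

end Pool.Agent.QC
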