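import Pool.Agent.QC.Plane.Glue
import Pool.Agent.QC.LS.Lift

/-!
# MP_7c50a9_lc: the plane system of a local system at a fixed tuple
-/

set_option autoImplicit false

open Set Metric Filter Topology

namespace Pool.Agent.QC

variable {Q : Type*} [TopologicalSpace Q] {F : Type*} [AddCommGroup F] [Module ℂ F]

/-- Solutions have holomorphic coordinates in the direction of `z`. -/
def HolZ (A : LS (Q × ℂ) F) {ι : Type} (ev : ι → F →ₗ[ℂ] ℂ) : Prop :=
  ∀ N y, A.sol N y → ∀ q z, (q, z) ∈ N → ∀ i, DifferentiableAt ℂ (fun z' => ev i (y (q, z'))) z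

/-- The data of a plane system at the tuple `q`. -/
structure PlaneData (A : LS (Q × ℂ) F) {ι : Type} (ev : ι → F →ₗ[ℂ] ℂ) (q : Q) where
  /-- half side of the small square -/
  R0 : ℝ
  /-- half side of the big square -/
  R1 : ℝ
  hR0 : 0 < R0
  hR : R0 < R1
  /-- the singular points -/
  S : Set ℂ
  S_fin : S.Finite
  S_sub : ∀ w ∈ S, |w.re| < R0 ∧ |w.im| < R0
  reg : ∀ z ∈ sq R1, z ∉ S → (q, z) ∈ A.X
  fill : ∀ {w ε g}, w ∈ S → 0 < ε → ball w ε ⊆ sq R1 → ball w ε ∩ S = {w} →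
    A.Par (fun z => (q, z)) (ball w ε \ {w}) g →
    ∃ g', (∀ i, DifferentiableOn ℂ (fun z => ev i (g' z)) (ball w ε)) ∧
      EqOn g' g (ball w ε \ {w})
  rank1 : ∀ {w ε V g g'}, w ∈ S → 0 < ε → ball w ε ⊆ sq R1 → ball w ε ∩ S = {w} →
    IsOpen V → Convex ℝ V → V ⊆ ball w ε → w ∉ V → V.Nonempty →
    A.Par (fun z => (q, z)) V g → A.Par (fun z => (q, z)) V g' →
    ∃ a b : ℂ, (a ≠ 0 ∨ b ≠ 0) ∧ ∃ k, (∀ i, DifferentiableOn ℂ (fun z => ev i (k z)) (ball w ε)) ∧
      A.Par (fun z => (q, z)) (ball w ε \ {w}) k ∧ EqOn k (fun z => a • g z + b • g' z) V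

variable {A : LS (Q × ℂ) F} {ι : Type} {ev : ι → F →ₗ[ℂ] ℂ} {q : Q}

lemma cont_mk (q : Q) (S : Set ℂ) : ContinuousOn (fun z : ℂ => (q, z)) S := by fun_prop

/-- Parallel sections over open sets are holomorphic. -/
theorem HolZ.diffOn (hol : HolZ A ev) {U : Set ℂ} (hU : IsOpen U) {g : ℂ → F}
    (hg : A.Par (fun z => (q, z)) U g) (i : ι) : DifferentiableOn ℂ (fun z => ev i (g z)) U := by
  intro z hz
  obtain ⟨N, y, h1, h2, h3⟩ := hg z hz
  have h4 := hol N y h2 q z h1 i
  rw [hU.nhdsWithin_eq hz] at h3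
  refine (h4.congr_of_eventuallyEq ?_).differentiableWithinAt
  filter_upwards [h3] with x hx
  rw [hx]

/-- The plane system of a local system at a tuple. -/
noncomputable def PlaneData.toPlane (D : PlaneData A ev q) (hA : A.Lin) (hol : HolZ A ev)
    (ev_inj : ∀ x, (∀ i, ev i x = 0) → x = 0) : PlaneSys F where
  R0 := D.R0
  R1 := D.R1
  hR0 := D.hR0
  hR := D.hR
  S := D.S
  S_fin := D.S_fin
  S_sub := D.S_sub
  ι := ι
  ev := ev
  ev_inj := ev_inj
  Sol := fun U g => (∀ i, DifferentiableOn ℂ (fun z => ev i (g z)) U) ∧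
    A.Par (fun z => (q, z)) (U \ D.S) g
  diff := fun _ hg i => hg.1 i
  mono := fun _ hUV hg => ⟨fun i => (hg.1 i).mono hUV, hg.2.mono (sdiff_subset_sdiff_left hUV)⟩
  congr := fun _ hg h => ⟨fun i => (hg.1 i).congr fun z hz => by rw [h hz],
    hg.2.congr (h.mono sdiff_subset)⟩
  local' := by
    intro U g hU h
    refine ⟨fun i z hz => ?_, LS.Par.of_local fun z hz => ?_⟩
    · obtain ⟨V, h1, h2, h3, h4⟩ := h z hz
      exact ((h4.1 i).differentiableAt (h1.mem_nhds h2)).differentiableWithinAt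
    · obtain ⟨V, h1, h2, h3, h4⟩ := h z hz.1
      refine ⟨V, mem_nhdsWithin_of_mem_nhds (h1.mem_nhds h2), h4.2.mono ?_⟩
      rintro x ⟨⟨hx1, hx2⟩, hx3⟩
      exact ⟨hx3, hx2⟩
  comb := fun a b hU hg hg' => ⟨fun i => by
      have := ((hg.1 i).const_mul a).add ((hg'.1 i).const_mul b)
      refine this.congr fun z hz => ?_
      simp, (LS.Par.add hA (cont_mk q _) (LS.Par.smul hA a hg.2) (LS.Par.smul hA b hg'.2))⟩
  zero := fun {U} _ => ⟨fun i => by simp, by
    have h := LS.Par.of_sol (A := A) (h := fun z : ℂ => (q, z)) (S := U \ D.S)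
      (hA.zero (N := univ) isOpen_univ) (fun _ _ => mem_univ _)
    exact h⟩
  ext := by
    intro U V g hU hc hR hS hV hcV hVU hne hg
    obtain ⟨z₀, hz₀⟩ := hne
    have hUS : U \ D.S = U := hS.sdiff_eq_left
    have hVS : V \ D.S = V := (hS.mono_left hVU).sdiff_eq_left
    have hX : MapsTo (fun z => (q, z)) U A.X := fun z hz =>
      D.reg z (hR hz) (Set.disjoint_left.mp hS hz)
    have hgV := hg.2
    rw [hVS] at hgV
    obtain ⟨u, hu1, hu2⟩ := LS.Par.exists_star (A := A) (h := fun z => (q, z))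
      (hc.starConvex (hVU hz₀)) (hVU hz₀) (cont_mk q U) hX (hgV.mem hz₀)
    refine ⟨u, ⟨fun i => hol.diffOn hU hu1 i, by rw [hUS]; exact hu1⟩, ?_⟩
    exact LS.Par.unique hcV.isPreconnected (cont_mk q V) (hX.mono_left hVU) (hu1.mono hVU) hgV hz₀ hu2
  fill := by
    intro w ε g hw hε hb hS hg
    have hbS : (ball w ε \ {w}) \ D.S = ball w ε \ {w} := by
      ext z
      constructor
      · exact fun h => h.1
      · intro h
        refine ⟨h, fun h3 => h.2 ?_⟩
        have : z ∈ ball w ε ∩ D.S := ⟨h.1, h3⟩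
        rw [hS] at this
        exact this
    have hbS2 : ball w ε \ D.S = ball w ε \ {w} := by
      ext z
      constructor
      · intro h
        exact ⟨h.1, fun h3 => h.2 (by rw [show z = w from h3]; exact hw)⟩
      · intro h
        refine ⟨h.1, fun h3 => h.2 ?_⟩
        have : z ∈ ball w ε ∩ D.S := ⟨h.1, h3⟩
        rw [hS] at this
        exact this
    have hg2 := hg.2
    rw [hbS] at hg2
    obtain ⟨g', h1, h2⟩ := D.fill hw hε hb hS hg2
    exact ⟨g', ⟨h1, by rw [hbS2]; exact hg2.congr h2.symm⟩, h2⟩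
  rank1 := by
    intro w ε V g g' hw hε hb hS hV hcV hVb hwV hne hg hg'
    have hbS2 : ball w ε \ D.S = ball w ε \ {w} := by
      ext z
      constructor
      · intro h
        exact ⟨h.1, fun h3 => h.2 (by rw [show z = w from h3]; exact hw)⟩
      · intro h
        refine ⟨h.1, fun h3 => h.2 ?_⟩
        have : z ∈ ball w ε ∩ D.S := ⟨h.1, h3⟩
        rw [hS] at this
        exact this
    have hVS : V \ D.S = V := by
      ext z
      constructor
      · exact fun h => h.1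
      · intro h
        refine ⟨h, fun h3 => ?_⟩
        have : z ∈ ball w ε ∩ D.S := ⟨hVb h, h3⟩
        rw [hS] at this
        have h4 : z = w := this
        exact hwV (h4 ▸ h)
    have h1 := hg.2
    have h2 := hg'.2
    rw [hVS] at h1 h2
    obtain ⟨a, b, hab, k, k1, k2, k3⟩ := D.rank1 hw hε hb hS hV hcV hVb hwV hne h1 h2
    exact ⟨a, b, hab, k, ⟨k1, by rw [hbS2]; exact k2⟩, k3⟩

end Pool.Agent.QC
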