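import Mathlib

/-!
# MP_7c50a9_lc: plane systems and the gluing lemma (5.3, 5.4, 5.5 of QC_Proof.md)

A `PlaneSys` is what we need to know about the linear differential equation in `z` at a fixed
tuple and frame: a finite set `S` of singular points in a small open square, and solutions on open
subsets of a bigger open square.  `PUp J w`: the solution `J` (given outside the small square)
extends along a thin strip to the left of the vertical line above `w` and over a small disc around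
`w`.  `PDn J w` is the same after the rotation `z ↦ - z`.
-/

set_option autoImplicit false

open Set Metric Filter Topology

namespace Pool.Agent.QC

/-- The open square. -/
def sq (R : ℝ) : Set ℂ := {z | |z.re| < R ∧ |z.im| < R}

/-- The closed square. -/
def csq (R : ℝ) : Set ℂ := {z | |z.re| ≤ R ∧ |z.im| ≤ R}

lemma isOpen_sq (R : ℝ) : IsOpen (sq R) := by
  have h1 : IsOpen {z : ℂ | |z.re| < R} := isOpen_lt Complex.continuous_re.abs continuous_const
  have h2 : IsOpen {z : ℂ | |z.im| < R} := isOpen_lt Complex.continuous_im.abs continuous_const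
  exact h1.inter h2

lemma isClosed_csq (R : ℝ) : IsClosed (csq R) := by
  have h1 : IsClosed {z : ℂ | |z.re| ≤ R} := isClosed_le Complex.continuous_re.abs continuous_const
  have h2 : IsClosed {z : ℂ | |z.im| ≤ R} := isClosed_le Complex.continuous_im.abs continuous_const
  exact h1.inter h2

lemma convex_re_lt (a : ℝ) : Convex ℝ {z : ℂ | z.re < a} := convex_halfSpace_re_lt a

lemma convex_sq (R : ℝ) : Convex ℝ (sq R) := by
  have h : sq R = (({z : ℂ | z.re < R} ∩ {z : ℂ | -R < z.re}) ∩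
      ({z : ℂ | z.im < R} ∩ {z : ℂ | -R < z.im})) := by
    ext z
    simp only [sq, mem_ofPred_eq, mem_inter_iff, abs_lt]
    tauto
  rw [h]
  exact ((convex_halfSpace_re_lt R).inter (convex_halfSpace_re_gt (-R))).inter
    ((convex_halfSpace_im_lt R).inter (convex_halfSpace_im_gt (-R)))

/-- Half planes. -/
def up (h : ℝ) : Set ℂ := {z | h < z.im}
/-- Half planes. -/
def dn (h : ℝ) : Set ℂ := {z | z.im < h}

lemma isOpen_up (h : ℝ) : IsOpen (up h) := isOpen_lt continuous_const Complex.continuous_im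
lemma isOpen_dn (h : ℝ) : IsOpen (dn h) := isOpen_lt Complex.continuous_im continuous_const
lemma convex_up (h : ℝ) : Convex ℝ (up h) := convex_halfSpace_im_gt h
lemma convex_dn (h : ℝ) : Convex ℝ (dn h) := convex_halfSpace_im_lt h

/-- Solutions of a linear differential equation in the plane, abstractly. -/
structure PlaneSys (F : Type*) [AddCommGroup F] [Module ℂ F] where
  /-- half side of the small square -/
  R0 : ℝ
  /-- half side of the big square -/
  R1 : ℝ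
  hR0 : 0 < R0
  hR : R0 < R1
  /-- the singular points -/
  S : Set ℂ
  S_fin : S.Finite
  S_sub : ∀ w ∈ S, |w.re| < R0 ∧ |w.im| < R0
  /-- index type of the coordinates -/
  ι : Type
  /-- the coordinates -/
  ev : ι → F →ₗ[ℂ] ℂ
  ev_inj : ∀ x, (∀ i, ev i x = 0) → x = 0
  /-- the solutions on open subsets of the big square (holomorphic also at the points of `S`) -/
  Sol : Set ℂ → (ℂ → F) → Prop
  diff : ∀ {U g}, IsOpen U → Sol U g → ∀ i, DifferentiableOn ℂ (fun z => ev i (g z)) U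
  mono : ∀ {U V g}, IsOpen U → U ⊆ V → Sol V g → Sol U g
  congr : ∀ {U g g'}, IsOpen U → Sol U g → EqOn g g' U → Sol U g'
  local' : ∀ {U g}, IsOpen U → (∀ z ∈ U, ∃ V, IsOpen V ∧ z ∈ V ∧ V ⊆ U ∧ Sol V g) → Sol U g
  comb : ∀ {U g g'} (a b : ℂ), IsOpen U → Sol U g → Sol U g' → Sol U (fun z => a • g z + b • g' z)
  zero : ∀ {U}, IsOpen U → Sol U (fun _ => 0)
  ext : ∀ {U V g}, IsOpen U → Convex ℝ U → U ⊆ sq R1 → Disjoint U S → IsOpen V → Convex ℝ V →
    V ⊆ U → V.Nonempty → Sol V g → ∃ g', Sol U g' ∧ EqOn g' g V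
  fill : ∀ {w ε g}, w ∈ S → 0 < ε → ball w ε ⊆ sq R1 → ball w ε ∩ S = {w} →
    Sol (ball w ε \ {w}) g → ∃ g', Sol (ball w ε) g' ∧ EqOn g' g (ball w ε \ {w})
  rank1 : ∀ {w ε V g g'}, w ∈ S → 0 < ε → ball w ε ⊆ sq R1 → ball w ε ∩ S = {w} →
    IsOpen V → Convex ℝ V → V ⊆ ball w ε → w ∉ V → V.Nonempty → Sol V g → Sol V g' →
    ∃ a b : ℂ, (a ≠ 0 ∨ b ≠ 0) ∧ ∃ k, Sol (ball w ε) k ∧ EqOn k (fun z => a • g z + b • g' z) V

namespace PlaneSys

variable {F : Type*} [AddCommGroup F] [Module ℂ F] (C : PlaneSys F)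

theorem ext_of_ev {x y : F} (h : ∀ i, C.ev i x = C.ev i y) : x = y := by
  have := C.ev_inj (x - y) (fun i => by rw [map_sub, h i, sub_self])
  exact sub_eq_zero.mp this

/-- Identity theorem. -/
theorem uniq {U V : Set ℂ} {g g' : ℂ → F} (hU : IsOpen U) (hc : IsPreconnected U)
    (hg : C.Sol U g) (hg' : C.Sol U g') (hV : IsOpen V) (hVU : V ⊆ U) (hne : V.Nonempty)
    (h : EqOn g g' V) : EqOn g g' U := by
  obtain ⟨z₀, hz₀⟩ := hne
  intro z hz
  refine C.ext_of_ev fun i => ?_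
  have h1 := (C.diff hU hg i).analyticOnNhd hU
  have h2 := (C.diff hU hg' i).analyticOnNhd hU
  have h3 : (fun z => C.ev i (g z)) =ᶠ[𝓝 z₀] (fun z => C.ev i (g' z)) := by
    filter_upwards [hV.mem_nhds hz₀] with x hx
    rw [h hx]
  exact h1.eqOn_of_preconnected_of_eventuallyEq h2 hc (hVU hz₀) h3 hz

/-- Identity theorem on a convex set. -/
theorem uniqc {U V : Set ℂ} {g g' : ℂ → F} (hU : IsOpen U) (hc : Convex ℝ U)
    (hg : C.Sol U g) (hg' : C.Sol U g') (hV : IsOpen V) (hVU : V ⊆ U) (hne : V.Nonempty)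
    (h : EqOn g g' V) : EqOn g g' U :=
  C.uniq hU hc.isPreconnected hg hg' hV hVU hne h

/-- The outer region. -/
def ann : Set ℂ := sq C.R1 \ csq C.R0

lemma isOpen_ann : IsOpen C.ann := (isOpen_sq _).sdiff (isClosed_csq _)

lemma S_disj_ann {z : ℂ} (hz : z ∈ C.ann) : z ∉ C.S := fun h =>
  hz.2 ⟨(C.S_sub z h).1.le, (C.S_sub z h).2.le⟩

/-- `J` is OUT: every coordinate extends to the outside of the small square and tends to zero at
infinity. -/
def Out (J : ℂ → F) : Prop :=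
  C.Sol C.ann J ∧ ∀ i, ∃ h : ℂ → ℂ, DifferentiableOn ℂ h (csq C.R0)ᶜ ∧
    EqOn h (fun z => C.ev i (J z)) C.ann ∧ Tendsto h (cocompact ℂ) (𝓝 0)

lemma csq_sub_sq : csq C.R0 ⊆ sq C.R1 := fun z hz =>
  ⟨lt_of_le_of_lt hz.1 C.hR, lt_of_le_of_lt hz.2 C.hR⟩

lemma bounded_sq (R : ℝ) : Bornology.IsBounded (sq R) := by
  rw [isBounded_iff_forall_norm_le]
  refine ⟨R + R, fun z hz => ?_⟩
  calc ‖z‖ ≤ |z.re| + |z.im| := Complex.norm_le_abs_re_add_abs_im z
    _ ≤ R + R := add_le_add hz.1.le hz.2.le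

/-- Liouville. -/
theorem eq_zero_of_out {J g : ℂ → F} (hJ : C.Out J) (hg : C.Sol (sq C.R1) g)
    (h : EqOn g J C.ann) : ∀ z ∈ C.ann, J z = 0 := by
  classical
  intro z hz
  refine C.ev_inj _ fun i => ?_
  obtain ⟨k, hk1, hk2, hk3⟩ := hJ.2 i
  set H : ℂ → ℂ := fun z => if z ∈ sq C.R1 then C.ev i (g z) else k z with hH
  have hout : ∀ z ∈ (csq C.R0)ᶜ, H z = k z := by
    intro z hz
    by_cases h1 : z ∈ sq C.R1
    · simp only [hH, if_pos h1]
      rw [hk2 ⟨h1, hz⟩, h ⟨h1, hz⟩]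
    · simp only [hH, if_neg h1]
  have hd : Differentiable ℂ H := by
    intro z
    by_cases h1 : z ∈ sq C.R1
    · have h2 : H =ᶠ[𝓝 z] (fun z => C.ev i (g z)) := by
        filter_upwards [(isOpen_sq C.R1).mem_nhds h1] with x hx
        simp only [hH, if_pos hx]
      exact ((C.diff (isOpen_sq _) hg i).differentiableAt ((isOpen_sq _).mem_nhds h1)).congr_of_eventuallyEq h2
    · have hz' : z ∈ (csq C.R0)ᶜ := fun h2 => h1 (C.csq_sub_sq h2)
      have h2 : H =ᶠ[𝓝 z] k := by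
        filter_upwards [(isClosed_csq C.R0).isOpen_compl.mem_nhds hz'] with x hx
        exact hout x hx
      exact (hk1.differentiableAt ((isClosed_csq _).isOpen_compl.mem_nhds hz')).congr_of_eventuallyEq h2
  have ht : Tendsto H (cocompact ℂ) (𝓝 0) := by
    refine hk3.congr' ?_
    have h1 : (sq C.R1)ᶜ ∈ cocompact ℂ := by
      rw [← Metric.cobounded_eq_cocompact]
      exact Bornology.isBounded_def.mp (bounded_sq C.R1)
    filter_upwards [h1] with x hx
    exact (hout x (fun h2 => hx (C.csq_sub_sq h2))).symm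
  have h0 := hd.apply_eq_of_tendsto_cocompact z ht
  rw [hout z hz.2, hk2 hz] at h0
  exact h0

/-- Gluing along a horizontal line. -/
theorem glue_line {U : Set ℂ} (hU : IsOpen U) {h : ℝ} {g' gL : ℂ → F}
    (hg' : C.Sol (U ∩ up h) g') (hgL : C.Sol (U ∩ dn h) gL)
    (hl : ∀ z ∈ U, z.im = h → ∃ ε > 0, ball z ε ⊆ U ∧ ∃ gz, C.Sol (ball z ε) gz ∧
      EqOn gz g' (ball z ε ∩ up h) ∧ EqOn gz gL (ball z ε ∩ dn h)) :
    ∃ g, C.Sol U g ∧ EqOn g g' (U ∩ up h) ∧ EqOn g gL (U ∩ dn h) := by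
  classical
  choose! ε hε hsub gz hgz hgz1 hgz2 using hl
  set g : ℂ → F := fun z => if h < z.im then g' z else if z.im < h then gL z else gz z z with hg
  have e1 : EqOn g g' (U ∩ up h) := fun z hz => by
    simp only [hg, if_pos hz.2.out]
  have e2 : EqOn g gL (U ∩ dn h) := fun z hz => by
    have h1 : ¬ h < z.im := not_lt.mpr (le_of_lt hz.2)
    have h2 : z.im < h := hz.2
    simp only [hg, if_neg h1, if_pos h2]
  have e3 : ∀ z ∈ U, z.im = h → EqOn g (gz z) (ball z (ε z)) := by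
    intro z hz hzh x hx
    rcases lt_trichotomy x.im h with h1 | h1 | h1
    · rw [e2 ⟨hsub z hz hzh hx, h1⟩, hgz2 z hz hzh ⟨hx, h1⟩]
    · have hxU := hsub z hz hzh hx
      have h2 : g x = gz x x := by
        simp only [hg, h1, lt_irrefl, if_false]
      rw [h2]
      have h3 : EqOn (gz x) (gz z) (ball x (ε x) ∩ ball z (ε z)) := by
        refine C.uniqc (V := (ball x (ε x) ∩ ball z (ε z)) ∩ up h) (isOpen_ball.inter isOpen_ball)
          ((convex_ball _ _).inter (convex_ball _ _))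
          (C.mono (isOpen_ball.inter isOpen_ball) inter_subset_left (hgz x hxU h1))
          (C.mono (isOpen_ball.inter isOpen_ball) inter_subset_right (hgz z hz hzh))
          ((isOpen_ball.inter isOpen_ball).inter (isOpen_up _)) inter_subset_left ?_ ?_
        · have hxm : x ∈ ball x (ε x) ∩ ball z (ε z) := ⟨mem_ball_self (hε x hxU h1), hx⟩
          obtain ⟨r, hr, hr2⟩ := Metric.isOpen_iff.mp (isOpen_ball.inter isOpen_ball) x hxm
          refine ⟨x + (r / 2 : ℝ) * Complex.I, hr2 ?_, ?_⟩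
          · rw [mem_ball, dist_eq_norm]
            simp only [add_sub_cancel_left, norm_mul, Complex.norm_real, Complex.norm_I, mul_one]
            rw [Real.norm_of_nonneg (by linarith)]
            linarith
          · simp only [up, mem_ofPred_eq, Complex.add_im, Complex.mul_im, Complex.ofReal_re,
              Complex.I_im, Complex.ofReal_im, Complex.I_re]
            linarith
        · intro y hy
          rw [hgz1 x hxU h1 ⟨hy.1.1, hy.2⟩, hgz1 z hz hzh ⟨hy.1.2, hy.2⟩]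
      exact h3 ⟨mem_ball_self (hε x hxU h1), hx⟩
    · rw [e1 ⟨hsub z hz hzh hx, h1⟩, hgz1 z hz hzh ⟨hx, h1⟩]
  refine ⟨g, C.local' hU fun z hz => ?_, e1, e2⟩
  rcases lt_trichotomy z.im h with h1 | h1 | h1
  · exact ⟨U ∩ dn h, hU.inter (isOpen_dn _), ⟨hz, h1⟩, inter_subset_left,
      C.congr (hU.inter (isOpen_dn _)) hgL e2.symm⟩
  · exact ⟨ball z (ε z), isOpen_ball, mem_ball_self (hε z hz h1), hsub z hz h1,
      C.congr isOpen_ball (hgz z hz h1) (e3 z hz h1).symm⟩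
  · exact ⟨U ∩ up h, hU.inter (isOpen_up _), ⟨hz, h1⟩, inter_subset_left,
      C.congr (hU.inter (isOpen_up _)) hg' e1.symm⟩

/-- The point `x + i h`. -/
def pt (x h : ℝ) : ℂ := ⟨x, h⟩

/-- Full local extension at the point `x + i h`. -/
def Full (U : Set ℂ) (h : ℝ) (g' gL : ℂ → F) (x : ℝ) : Prop :=
  ∃ ε > 0, ball (⟨x, h⟩ : ℂ) ε ⊆ U ∧ ∃ gz, C.Sol (ball (⟨x, h⟩ : ℂ) ε) gz ∧
    EqOn gz g' (ball (⟨x, h⟩ : ℂ) ε ∩ up h) ∧ EqOn gz gL (ball (⟨x, h⟩ : ℂ) ε ∩ dn h)

lemma half_up_nonempty {z : ℂ} {V : Set ℂ} (hV : IsOpen V) (hz : z ∈ V) :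
    (V ∩ up z.im).Nonempty := by
  obtain ⟨r, hr, hr2⟩ := Metric.isOpen_iff.mp hV z hz
  refine ⟨z + (r / 2 : ℝ) * Complex.I, hr2 ?_, ?_⟩
  · rw [mem_ball, dist_eq_norm]
    simp only [add_sub_cancel_left, norm_mul, Complex.norm_real, Complex.norm_I, mul_one]
    rw [Real.norm_of_nonneg (by linarith)]
    linarith
  · simp only [up, mem_ofPred_eq, Complex.add_im, Complex.mul_im, Complex.ofReal_re,
      Complex.I_im, Complex.ofReal_im, Complex.I_re]
    linarith

lemma half_dn_nonempty {z : ℂ} {V : Set ℂ} (hV : IsOpen V) (hz : z ∈ V) :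
    (V ∩ dn z.im).Nonempty := by
  obtain ⟨r, hr, hr2⟩ := Metric.isOpen_iff.mp hV z hz
  refine ⟨z - (r / 2 : ℝ) * Complex.I, hr2 ?_, ?_⟩
  · rw [mem_ball, dist_eq_norm]
    simp only [sub_sub_cancel_left, norm_neg, norm_mul, Complex.norm_real, Complex.norm_I, mul_one]
    rw [Real.norm_of_nonneg (by linarith)]
    linarith
  · simp only [dn, mem_ofPred_eq, Complex.sub_im, Complex.mul_im, Complex.ofReal_re,
      Complex.I_im, Complex.ofReal_im, Complex.I_re]
    linarith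

/-- The full extension property spreads over an interval. -/
theorem full_of_full {U : Set ℂ} {h a b x₀ : ℝ} {g' gL : ℂ → F}
    (hgL : C.Sol (U ∩ dn h) gL)
    (hl : ∀ x ∈ Ioo a b, ∃ ε > 0, ball (⟨x, h⟩ : ℂ) ε ⊆ U ∧
      ∃ gz, C.Sol (ball (⟨x, h⟩ : ℂ) ε) gz ∧ EqOn gz g' (ball (⟨x, h⟩ : ℂ) ε ∩ up h))
    (hx₀ : x₀ ∈ Ioo a b) (h0 : C.Full U h g' gL x₀) : ∀ x ∈ Ioo a b, C.Full U h g' gL x := by
  have hcont : Continuous (fun x : ℝ => (⟨x, h⟩ : ℂ)) := by
    have : (fun x : ℝ => (⟨x, h⟩ : ℂ)) = fun x : ℝ => (x : ℂ) + h * Complex.I := by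
      funext x
      apply Complex.ext <;> simp
    rw [this]
    fun_prop
  -- openness
  have hop : IsOpen {x | C.Full U h g' gL x} := by
    rw [isOpen_iff_mem_nhds]
    rintro x ⟨ε, hε, hsub, gz, h1, h2, h3⟩
    have : ∀ᶠ y in 𝓝 x, (⟨y, h⟩ : ℂ) ∈ ball (⟨x, h⟩ : ℂ) ε :=
      hcont.continuousAt.eventually (isOpen_ball.mem_nhds (mem_ball_self hε))
    filter_upwards [this] with y hy
    obtain ⟨r, hr, hr2⟩ := Metric.isOpen_iff.mp isOpen_ball _ hy
    exact ⟨r, hr, hr2.trans hsub, gz, C.mono isOpen_ball hr2 h1,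
      h2.mono (inter_subset_inter_left _ hr2), h3.mono (inter_subset_inter_left _ hr2)⟩
  have hcl : ∀ x ∈ Ioo a b, ¬ C.Full U h g' gL x → ∀ᶠ y in 𝓝 x, ¬ C.Full U h g' gL y := by
    intro x hx hnf
    obtain ⟨ε, hε, hsub, gz, h1, h2⟩ := hl x hx
    have : ∀ᶠ y in 𝓝 x, (⟨y, h⟩ : ℂ) ∈ ball (⟨x, h⟩ : ℂ) ε :=
      hcont.continuousAt.eventually (isOpen_ball.mem_nhds (mem_ball_self hε))
    filter_upwards [this] with y hy hF
    obtain ⟨δ, hδ, hsub', gy, k1, k2, k3⟩ := hF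
    refine hnf ⟨ε, hε, hsub, gz, h1, h2, ?_⟩
    have hBo : IsOpen (ball (⟨y, h⟩ : ℂ) δ ∩ ball (⟨x, h⟩ : ℂ) ε) := isOpen_ball.inter isOpen_ball
    have hyB : (⟨y, h⟩ : ℂ) ∈ ball (⟨y, h⟩ : ℂ) δ ∩ ball (⟨x, h⟩ : ℂ) ε := ⟨mem_ball_self hδ, hy⟩
    have e1 : EqOn gy gz (ball (⟨y, h⟩ : ℂ) δ ∩ ball (⟨x, h⟩ : ℂ) ε) := by
      refine C.uniqc (V := (ball (⟨y, h⟩ : ℂ) δ ∩ ball (⟨x, h⟩ : ℂ) ε) ∩ up h) hBo
        ((convex_ball _ _).inter (convex_ball _ _))
        (C.mono hBo inter_subset_left k1) (C.mono hBo inter_subset_right h1)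
        (hBo.inter (isOpen_up _)) inter_subset_left (half_up_nonempty hBo hyB) ?_
      intro w hw
      rw [k2 ⟨hw.1.1, hw.2⟩, h2 ⟨hw.1.2, hw.2⟩]
    refine C.uniqc (V := (ball (⟨y, h⟩ : ℂ) δ ∩ ball (⟨x, h⟩ : ℂ) ε) ∩ dn h)
      (isOpen_ball.inter (isOpen_dn _))
      ((convex_ball _ _).inter (convex_dn _))
      (C.mono (isOpen_ball.inter (isOpen_dn _)) inter_subset_left h1)
      (C.mono (isOpen_ball.inter (isOpen_dn _)) (inter_subset_inter_left _ hsub) hgL)
      (hBo.inter (isOpen_dn _)) (inter_subset_inter_left _ inter_subset_right)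
      (half_dn_nonempty hBo hyB) ?_
    intro w hw
    rw [← e1 hw.1, k3 ⟨hw.1.1, hw.2⟩]
  -- connectedness
  by_contra hcon
  push Not at hcon
  obtain ⟨x₁, hx₁, hn⟩ := hcon
  have hpre : IsPreconnected (Ioo a b) := isPreconnected_Ioo
  have hV : IsOpen {x | ∀ᶠ y in 𝓝 x, ¬ C.Full U h g' gL y} := isOpen_setOfPred_eventually_nhds
  obtain ⟨y, -, hy1, hy2⟩ := hpre _ _ hop hV (fun x hx => by
      by_cases hF : C.Full U h g' gL x
      · exact Or.inl hF
      · exact Or.inr (hcl x hx hF)) ⟨x₀, hx₀, h0⟩ ⟨x₁, hx₁, hcl x₁ hx₁ hn⟩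
  exact hy2.self_of_nhds hy1

end PlaneSys

end Pool.Agent.QC
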