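import Pool.Agent.QC.Plane.Sweep

/-!
# MP_7c50a9_lc: the gluing lemma (5.4, 5.5 of QC_Proof.md)

An OUT solution satisfying all conditions except the one at a single point is zero.
-/

set_option autoImplicit false

open Set Metric Filter Topology

namespace Pool.Agent.QC

lemma neg_preimage_ball (w : ℂ) (ε : ℝ) : (fun z : ℂ => -z) ⁻¹' ball w ε = ball (-w) ε := by
  ext z
  simp only [mem_preimage, mem_ball, dist_eq_norm]
  rw [show -z - w = -(z - -w) by ring, norm_neg]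

lemma neg_preimage_sq (R : ℝ) : (fun z : ℂ => -z) ⁻¹' sq R = sq R := by
  ext z
  simp [sq]

lemma neg_preimage_csq (R : ℝ) : (fun z : ℂ => -z) ⁻¹' csq R = csq R := by
  ext z
  simp [csq]

lemma neg_preimage_up (h : ℝ) : (fun z : ℂ => -z) ⁻¹' up h = dn (-h) := by
  ext z
  simp only [mem_preimage, up, dn, mem_ofPred_eq, Complex.neg_im]
  constructor <;> intro h <;> linarith

lemma neg_preimage_dn (h : ℝ) : (fun z : ℂ => -z) ⁻¹' dn h = up (-h) := by
  ext z
  simp only [mem_preimage, up, dn, mem_ofPred_eq, Complex.neg_im]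
  constructor <;> intro h <;> linarith

lemma isOpen_neg_preimage {U : Set ℂ} (hU : IsOpen U) : IsOpen ((fun z : ℂ => -z) ⁻¹' U) :=
  hU.preimage continuous_neg

lemma convex_neg_preimage {U : Set ℂ} (hU : Convex ℝ U) :
    Convex ℝ ((fun z : ℂ => -z) ⁻¹' U) :=
  hU.linear_preimage (-LinearMap.id : ℂ →ₗ[ℝ] ℂ)

namespace PlaneSys

variable {F : Type*} [AddCommGroup F] [Module ℂ F] (C : PlaneSys F)

/-- The rotated system. -/
def flip : PlaneSys F where
  R0 := C.R0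
  R1 := C.R1
  hR0 := C.hR0
  hR := C.hR
  S := (fun z : ℂ => -z) ⁻¹' C.S
  S_fin := C.S_fin.preimage (neg_injective.injOn)
  S_sub := fun w hw => by
    have := C.S_sub _ hw
    simpa using this
  ι := C.ι
  ev := C.ev
  ev_inj := C.ev_inj
  Sol := fun U g => C.Sol ((fun z : ℂ => -z) ⁻¹' U) (fun z => g (-z))
  diff := by
    intro U g hU hg i
    have h := C.diff (isOpen_neg_preimage hU) hg i
    have h2 : DifferentiableOn ℂ ((fun z => C.ev i (g (-z))) ∘ (fun z : ℂ => -z)) U :=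
      h.comp differentiable_neg.differentiableOn (fun z hz => by simpa using hz)
    simpa [Function.comp_def] using h2
  mono := fun hU hUV hg => C.mono (isOpen_neg_preimage hU) (preimage_mono hUV) hg
  congr := fun hU hg h => C.congr (isOpen_neg_preimage hU) hg (fun z hz => h hz)
  local' := by
    intro U g hU h
    refine C.local' (isOpen_neg_preimage hU) fun z hz => ?_
    obtain ⟨V, h1, h2, h3, h4⟩ := h (-z) hz
    exact ⟨(fun z : ℂ => -z) ⁻¹' V, isOpen_neg_preimage h1, h2, preimage_mono h3, h4⟩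
  comb := fun a b hU hg hg' => C.comb a b (isOpen_neg_preimage hU) hg hg'
  zero := fun hU => C.zero (isOpen_neg_preimage hU)
  ext := by
    intro U V g hU hc hR hS hV hcV hVU hne hg
    obtain ⟨g', h1, h2⟩ := C.ext (isOpen_neg_preimage hU) (convex_neg_preimage hc)
      (by rw [← neg_preimage_sq]; exact preimage_mono hR)
      (Set.disjoint_left.mpr fun z hz hzS => by
        refine Set.disjoint_left.mp hS hz ?_
        simpa using hzS) (isOpen_neg_preimage hV)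
      (convex_neg_preimage hcV) (preimage_mono hVU) (by
        obtain ⟨z, hz⟩ := hne
        exact ⟨-z, by simpa using hz⟩) hg
    refine ⟨fun z => g' (-z), by simpa using h1, fun z hz => ?_⟩
    have := h2 (show -z ∈ (fun z : ℂ => -z) ⁻¹' V by simpa using hz)
    simpa using this
  fill := by
    intro w ε g hw hε hb hS hg
    have hp : (fun z : ℂ => -z) ⁻¹' (ball w ε \ {w}) = ball (-w) ε \ {-w} := by
      rw [preimage_sdiff, neg_preimage_ball]
      congr 1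
      ext z
      simp
    obtain ⟨g', h1, h2⟩ := C.fill (w := -w) (ε := ε) (g := fun z => g (-z)) hw hε
      (by rw [← neg_preimage_ball, ← neg_preimage_sq]; exact preimage_mono hb)
      (by
        ext z
        have := Set.ext_iff.mp hS (-z)
        simp only [mem_inter_iff, mem_ball, dist_eq_norm, mem_preimage, neg_neg,
          mem_singleton_iff] at this ⊢
        rw [show z - -w = -(-z - w) by ring, norm_neg, this, neg_eq_iff_eq_neg])
      (by rw [← hp]; exact hg)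
    refine ⟨fun z => g' (-z), ?_, fun z hz => ?_⟩
    · rw [neg_preimage_ball]
      simpa using h1
    · have := h2 (show -z ∈ ball (-w) ε \ {-w} by rw [← hp]; simpa using hz)
      simpa using this
  rank1 := by
    intro w ε V g g' hw hε hb hS hV hcV hVb hwV hne hg hg'
    obtain ⟨a, b, hab, k, h1, h2⟩ := C.rank1 (w := -w) (ε := ε) (V := (fun z : ℂ => -z) ⁻¹' V)
      (g := fun z => g (-z)) (g' := fun z => g' (-z)) hw hε
      (by rw [← neg_preimage_ball, ← neg_preimage_sq]; exact preimage_mono hb)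
      (by
        ext z
        have := Set.ext_iff.mp hS (-z)
        simp only [mem_inter_iff, mem_ball, dist_eq_norm, mem_preimage, neg_neg,
          mem_singleton_iff] at this ⊢
        rw [show z - -w = -(-z - w) by ring, norm_neg, this, neg_eq_iff_eq_neg])
      (isOpen_neg_preimage hV) (convex_neg_preimage hcV)
      (by rw [← neg_preimage_ball]; exact preimage_mono hVb) (by simpa using hwV)
      (by
        obtain ⟨z, hz⟩ := hne
        exact ⟨-z, by simpa using hz⟩) hg hg'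
    refine ⟨a, b, hab, fun z => k (-z), ?_, fun z hz => ?_⟩
    · rw [neg_preimage_ball]
      simpa using h1
    · have := h2 (show -z ∈ (fun z : ℂ => -z) ⁻¹' V by simpa using hz)
      simpa using this

/-- The strip below `w`. -/
def stripDn (lft : Bool) (w : ℂ) (ε : ℝ) : Set ℂ :=
  match lft with
  | true => {z | w.re - ε < z.re ∧ z.re < w.re ∧ z.im < w.im}
  | false => {z | w.re < z.re ∧ z.re < w.re + ε ∧ z.im < w.im}

/-- The strip below `w`, together with a disc around `w`. -/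
def regDn (lft : Bool) (w : ℂ) (ε : ℝ) : Set ℂ :=
  sq C.R1 ∩ (stripDn lft w ε ∪ ball w ε)

/-- The bottom-up condition at `w`. -/
def PDn (lft : Bool) (J : ℂ → F) (w : ℂ) : Prop :=
  ∃ ε > 0, ∃ g, C.Sol (C.regDn lft w ε) g ∧ EqOn g J (C.regDn lft w ε ∩ dn (-C.R0))

lemma neg_preimage_strip (lft : Bool) (w : ℂ) (ε : ℝ) :
    (fun z : ℂ => -z) ⁻¹' strip (!lft) (-w) ε = stripDn lft w ε := by
  ext z
  cases lft <;> simp only [strip, stripDn, mem_preimage, mem_ofPred_eq, Complex.neg_re,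
    Complex.neg_im, Bool.not_true, Bool.not_false] <;> constructor <;> rintro ⟨h1, h2, h3⟩ <;>
    refine ⟨by linarith, by linarith, by linarith⟩

lemma regDn_eq (lft : Bool) (w : ℂ) (ε : ℝ) :
    (fun z : ℂ => -z) ⁻¹' (C.flip.regUp (!lft) (-w) ε) = C.regDn lft w ε := by
  unfold regUp regDn
  rw [preimage_inter, preimage_union, neg_preimage_ball, neg_preimage_strip, neg_neg]
  congr 1
  exact neg_preimage_sq C.R1

theorem PDn_iff {lft : Bool} {J : ℂ → F} {w : ℂ} :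
    C.PDn lft J w ↔ C.flip.PUp (!lft) (fun z => J (-z)) (-w) := by
  have hdn : (fun z : ℂ => -z) ⁻¹' (up C.R0) = dn (-C.R0) := neg_preimage_up _
  constructor
  · rintro ⟨ε, hε, g, h1, h2⟩
    refine ⟨ε, hε, fun z => g (-z), ?_, ?_⟩
    · change C.Sol ((fun z : ℂ => -z) ⁻¹' (C.flip.regUp (!lft) (-w) ε)) (fun z => g (- -z))
      rw [regDn_eq]
      simpa using h1
    · intro z hz
      refine h2 ?_
      rw [← regDn_eq, ← hdn]
      change - -z ∈ C.flip.regUp (!lft) (-w) ε ∧ - -z ∈ up C.R0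
      rw [neg_neg]
      exact hz
  · rintro ⟨ε, hε, g, h1, h2⟩
    refine ⟨ε, hε, fun z => g (-z), ?_, ?_⟩
    · have h3 : C.Sol ((fun z : ℂ => -z) ⁻¹' (C.flip.regUp (!lft) (-w) ε)) (fun z => g (-z)) := h1
      rwa [regDn_eq] at h3
    · intro z hz
      rw [← regDn_eq, ← hdn] at hz
      have := h2 (show -z ∈ C.flip.regUp (!lft) (-w) ε ∩ up C.flip.R0 from hz)
      simpa using this

lemma flip_ann : (fun z : ℂ => -z) ⁻¹' C.flip.ann = C.ann := by
  unfold ann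
  rw [preimage_sdiff]
  congr 1
  · exact neg_preimage_sq C.R1
  · exact neg_preimage_csq C.R0

theorem sweepUp {lft : Bool} {J : ℂ → F} (hJ : C.Sol C.ann J) (h0 : ℝ)
    (h : ∀ w ∈ C.S, h0 < w.im → C.PUp lft J w) :
    ∃ g, C.Sol (sq C.R1 ∩ up h0) g ∧ EqOn g J (C.ann ∩ up h0) := by
  obtain ⟨g, h1, h2⟩ := C.sweep hJ _ h0 rfl h
  exact ⟨g, h1, fun z hz => h2 ⟨⟨hz.1.1, hz.2⟩, hz.1.2⟩⟩

theorem sweepDn {lft : Bool} {J : ℂ → F} (hJ : C.Sol C.ann J) (h0 : ℝ)
    (h : ∀ w ∈ C.S, w.im < h0 → C.PDn lft J w) :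
    ∃ g, C.Sol (sq C.R1 ∩ dn h0) g ∧ EqOn g J (C.ann ∩ dn h0) := by
  have hJ' : C.flip.Sol C.flip.ann (fun z => J (-z)) := by
    change C.Sol ((fun z : ℂ => -z) ⁻¹' C.flip.ann) (fun z => J (- -z))
    rw [flip_ann]
    simpa using hJ
  obtain ⟨g, h1, h2⟩ := C.flip.sweepUp (lft := !lft) hJ' (-h0) (by
    intro w hw hwh
    have h3 : C.PDn lft J (-w) := h (-w) hw (by rw [Complex.neg_im]; linarith)
    have := C.PDn_iff.mp h3
    rwa [neg_neg] at this)
  have hset : (fun z : ℂ => -z) ⁻¹' (sq C.flip.R1 ∩ up (-h0)) = sq C.R1 ∩ dn h0 := by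
    rw [preimage_inter, neg_preimage_up, neg_neg]
    congr 1
    exact neg_preimage_sq C.R1
  refine ⟨fun z => g (-z), ?_, ?_⟩
  · have h3 : C.Sol ((fun z : ℂ => -z) ⁻¹' (sq C.flip.R1 ∩ up (-h0))) (fun z => g (-z)) := h1
    rwa [hset] at h3
  · intro z hz
    have hz1 : -z ∈ C.flip.ann := by
      have := hz.1
      rw [← flip_ann] at this
      exact this
    have hz2 : -z ∈ up (-h0) := by
      have h3 : z.im < h0 := hz.2
      change -h0 < (-z).im
      rw [Complex.neg_im]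
      linarith
    have := h2 ⟨hz1, hz2⟩
    simpa using this

/-- **Gluing lemma**, first form: if the top-down conditions hold at all singular points at least
as high as `w₀`, except `w₀`, and the bottom-up conditions at the lower ones, then the solution
extends to the whole square. -/
theorem extend_all {l₁ l₂ : Bool} {J : ℂ → F} (hJ : C.Sol C.ann J) {w₀ : ℂ} (hw₀ : w₀ ∈ C.S)
    (h1 : ∀ w ∈ C.S, w₀.im ≤ w.im → w ≠ w₀ → C.PUp l₁ J w)
    (h2 : ∀ w ∈ C.S, w.im < w₀.im → C.PDn l₂ J w) :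
    ∃ g, C.Sol (sq C.R1) g ∧ EqOn g J C.ann := by
  classical
  have hR0 := C.hR0
  have hR := C.hR
  have hw₀S := C.S_sub _ hw₀
  have hre := abs_lt.mp hw₀S.1
  have him := abs_lt.mp hw₀S.2
  set h := w₀.im with hh
  obtain ⟨gu, hgu1, hgu2⟩ := C.sweepUp (lft := l₁) hJ h (fun w hw hwh => h1 w hw hwh.le (by
    rintro rfl
    exact lt_irrefl _ hwh))
  obtain ⟨gd, hgd1, hgd2⟩ := C.sweepDn (lft := l₂) hJ h h2
  set U : Set ℂ := sq C.R1 \ {w₀} with hU
  have oU : IsOpen U := (isOpen_sq _).sdiff isClosed_singleton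
  have hUsub : U ⊆ sq C.R1 := sdiff_subset
  have hgu : C.Sol (U ∩ up h) gu :=
    C.mono (oU.inter (isOpen_up _)) (inter_subset_inter_left _ hUsub) hgu1
  have hgd : C.Sol (U ∩ dn h) gd :=
    C.mono (oU.inter (isOpen_dn _)) (inter_subset_inter_left _ hUsub) hgd1
  have hgutop : EqOn gu J (sq C.R1 ∩ up h ∩ up C.R0) := fun z hz => hgu2
    ⟨⟨hz.1.1, fun h3 => by
      have h4 := (abs_le.mp h3.2).2
      have h5 : C.R0 < z.im := hz.2
      linarith⟩, hz.1.2⟩
  have hloc : ∀ x : ℝ, -C.R1 < x → x < C.R1 → x ≠ w₀.re → ∃ ε > 0, ball (⟨x, h⟩ : ℂ) ε ⊆ U ∧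
      ∃ gz, C.Sol (ball (⟨x, h⟩ : ℂ) ε) gz ∧ EqOn gz gu (ball (⟨x, h⟩ : ℂ) ε ∩ up h) := by
    intro x hx1 hx2 hx3
    have hne : (⟨x, h⟩ : ℂ) ≠ w₀ := fun he => hx3 (by rw [← he])
    have hxU : (⟨x, h⟩ : ℂ) ∈ U :=
      ⟨⟨abs_lt.mpr ⟨hx1, hx2⟩, abs_lt.mpr ⟨by simp only; linarith, by simp only; linarith⟩⟩, hne⟩
    by_cases hxS : (⟨x, h⟩ : ℂ) ∈ C.S
    · exact C.local_PUp (lft := l₁) oU (w := (⟨x, h⟩ : ℂ)) hgu1 hgutop hxU hUsub
        (h1 _ hxS le_rfl hne)
    · exact C.local_regular oU hUsub hgu hxU hxS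
  have hann : ∀ x : ℝ, C.R0 < |x| → |x| < C.R1 → C.Full U h gu gd x := by
    intro x hx1 hx2
    have hx : (⟨x, h⟩ : ℂ) ∈ C.ann :=
      ⟨⟨hx2, abs_lt.mpr ⟨by simp only; linarith, by simp only; linarith⟩⟩,
        fun h3 => absurd h3.1 (not_le.mpr hx1)⟩
    obtain ⟨ε, hε, hsub⟩ := Metric.isOpen_iff.mp C.isOpen_ann _ hx
    refine ⟨ε, hε, fun z hz => ⟨(hsub hz).1, fun h3 => ?_⟩, J, C.mono isOpen_ball hsub hJ,
      fun z hz => (hgu2 ⟨hsub hz.1, hz.2⟩).symm, fun z hz => (hgd2 ⟨hsub hz.1, hz.2⟩).symm⟩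
    have h4 : z = w₀ := h3
    exact C.S_disj_ann (hsub hz) (h4 ▸ hw₀)
  have hfull : ∀ x : ℝ, -C.R1 < x → x < C.R1 → x ≠ w₀.re → C.Full U h gu gd x := by
    intro x hx1 hx2 hx3
    rcases lt_or_gt_of_ne hx3 with hlt | hgt
    · refine C.full_of_full (a := -C.R1) (b := w₀.re) (x₀ := -(C.R0 + C.R1) / 2) hgd
        (fun y hy => hloc y hy.1 (by linarith [hy.2]) hy.2.ne) ⟨by linarith, by linarith⟩ ?_ x
        ⟨hx1, hlt⟩
      apply hann
      · rw [abs_of_neg (by linarith)]; linarith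
      · rw [abs_of_neg (by linarith)]; linarith
    · refine C.full_of_full (a := w₀.re) (b := C.R1) (x₀ := (C.R0 + C.R1) / 2) hgd
        (fun y hy => hloc y (by linarith [hy.1]) hy.2 hy.1.ne') ⟨by linarith, by linarith⟩ ?_ x
        ⟨hgt, hx2⟩
      apply hann
      · rw [abs_of_pos (by linarith)]; linarith
      · rw [abs_of_pos (by linarith)]; linarith
  obtain ⟨g, hg1, hg2, hg3⟩ := C.glue_line oU hgu hgd (fun z hz hzh => by
    have e1 : z = (⟨z.re, h⟩ : ℂ) := Complex.ext rfl hzh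
    have hne : z.re ≠ w₀.re := fun he => hz.2 (Complex.ext he hzh)
    have hz1 := abs_lt.mp hz.1.1
    obtain ⟨ε, hε, h2⟩ := hfull z.re hz1.1 hz1.2 hne
    rw [← e1] at h2
    exact ⟨ε, hε, h2⟩)
  -- fill in the point w₀
  obtain ⟨ε, hε, hb⟩ := Metric.isOpen_iff.mp
    ((isOpen_sq C.R1).sdiff (C.S_fin.subset (sdiff_subset (t := {w₀}))).isClosed) w₀
      ⟨⟨hw₀S.1.trans hR, hw₀S.2.trans hR⟩, fun hc => hc.2 rfl⟩
  have hbsq : ball w₀ ε ⊆ sq C.R1 := fun z hz => (hb hz).1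
  have hbS : ball w₀ ε ∩ C.S = {w₀} := by
    ext z
    constructor
    · rintro ⟨hz1, hz2⟩
      by_contra hne
      exact (hb hz1).2 ⟨hz2, hne⟩
    · rintro rfl
      exact ⟨mem_ball_self hε, hw₀⟩
  obtain ⟨k, hk1, hk2⟩ := C.fill hw₀ hε hbsq hbS
    (C.mono (isOpen_ball.sdiff isClosed_singleton) (sdiff_subset_sdiff_left hbsq) hg1)
  set G : ℂ → F := fun z => if z = w₀ then k z else g z with hG
  have hG1 : EqOn G g U := fun z hz => by
    have : z ≠ w₀ := hz.2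
    simp only [hG, if_neg this]
  have hG2 : EqOn G k (ball w₀ ε) := fun z hz => by
    by_cases hzw : z = w₀
    · simp only [hG, if_pos hzw]
    · simp only [hG, if_neg hzw]
      exact (hk2 ⟨hz, hzw⟩).symm
  have hGs : C.Sol (sq C.R1) G := by
    refine C.local' (isOpen_sq _) fun z hz => ?_
    by_cases hzw : z = w₀
    · exact ⟨ball w₀ ε, isOpen_ball, by rw [hzw]; exact mem_ball_self hε, hbsq,
        C.congr isOpen_ball hk1 hG2.symm⟩
    · exact ⟨U, oU, ⟨hz, hzw⟩, hUsub, C.congr oU hg1 hG1.symm⟩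
  refine ⟨G, hGs, ?_⟩
  intro z hz
  have hzw : z ≠ w₀ := fun he => C.S_disj_ann hz (he ▸ hw₀)
  have hzU : z ∈ U := ⟨hz.1, hzw⟩
  rw [hG1 hzU]
  rcases lt_trichotomy z.im h with hc | hc | hc
  · rw [hg3 ⟨hzU, hc⟩]
    exact hgd2 ⟨hz, hc⟩
  · obtain ⟨δ, hδ, hsub⟩ := Metric.isOpen_iff.mp (C.isOpen_ann.inter oU) _ ⟨hz, hzU⟩
    have hnb : (ball z δ ∩ up h).Nonempty := by
      rw [← hc]
      exact half_up_nonempty isOpen_ball (mem_ball_self hδ)
    refine C.uniqc isOpen_ball (convex_ball z δ)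
      (C.mono (V := U) isOpen_ball (fun x hx => (hsub hx).2) hg1)
      (C.mono (V := C.ann) isOpen_ball (fun x hx => (hsub hx).1) hJ)
      (isOpen_ball.inter (isOpen_up h)) inter_subset_left hnb ?_ (mem_ball_self hδ)
    intro x hx
    rw [hg2 ⟨(hsub hx.1).2, hx.2⟩]
    exact hgu2 ⟨(hsub hx.1).1, hx.2⟩
  · rw [hg2 ⟨hzU, hc⟩]
    exact hgu2 ⟨hz, hc⟩

/-- **Gluing lemma**: an OUT solution which satisfies the top-down conditions at all singular
points at least as high as `w₀`, except `w₀`, and the bottom-up conditions at the lower ones, is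
zero. -/
theorem eq_zero {l₁ l₂ : Bool} {J : ℂ → F} (hJ : C.Out J) {w₀ : ℂ} (hw₀ : w₀ ∈ C.S)
    (h1 : ∀ w ∈ C.S, w₀.im ≤ w.im → w ≠ w₀ → C.PUp l₁ J w)
    (h2 : ∀ w ∈ C.S, w.im < w₀.im → C.PDn l₂ J w) : ∀ z ∈ C.ann, J z = 0 := by
  obtain ⟨g, hg1, hg2⟩ := C.extend_all hJ.1 hw₀ h1 h2
  exact C.eq_zero_of_out hJ hg1 hg2

/-- Rank one: a suitable combination of two solutions satisfies the top-down condition. -/
theorem comb_PUp {l₁ l₂ : Bool} {J J' : ℂ → F} (hJ : C.Sol C.ann J) (hJ' : C.Sol C.ann J')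
    {w₀ : ℂ} (hw₀ : w₀ ∈ C.S) (h : ∀ w ∈ C.S, w₀.im < w.im → C.PUp l₁ J w)
    (h' : ∀ w ∈ C.S, w₀.im < w.im → C.PUp l₁ J' w) :
    ∃ a b : ℂ, (a ≠ 0 ∨ b ≠ 0) ∧ C.PUp l₂ (fun z => a • J z + b • J' z) w₀ := by
  classical
  have hR0 := C.hR0
  have hR := C.hR
  have hw₀S := C.S_sub _ hw₀
  obtain ⟨g, hg1, hg2⟩ := C.sweepUp hJ w₀.im h
  obtain ⟨g', hg1', hg2'⟩ := C.sweepUp hJ' w₀.im h'
  have hO : IsOpen ((sq C.R1 \ (C.S \ {w₀})) ∩ (sq C.R0)) :=
    ((isOpen_sq C.R1).sdiff (C.S_fin.subset (sdiff_subset (t := {w₀}))).isClosed).inter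
      (isOpen_sq _)
  obtain ⟨ε, hε, hb⟩ := Metric.isOpen_iff.mp hO w₀
      ⟨⟨⟨hw₀S.1.trans hR, hw₀S.2.trans hR⟩, fun hc => hc.2 rfl⟩, hw₀S⟩
  have hbsq : ball w₀ ε ⊆ sq C.R1 := fun z hz => (hb hz).1.1
  have hbS : ball w₀ ε ∩ C.S = {w₀} := by
    ext z
    constructor
    · rintro ⟨hz1, hz2⟩
      by_contra hne
      exact (hb hz1).1.2 ⟨hz2, hne⟩
    · rintro rfl
      exact ⟨mem_ball_self hε, hw₀⟩
  have oV : IsOpen (ball w₀ ε ∩ up w₀.im) := isOpen_ball.inter (isOpen_up _)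
  have hVsub : ball w₀ ε ∩ up w₀.im ⊆ sq C.R1 ∩ up w₀.im := inter_subset_inter_left _ hbsq
  obtain ⟨a, b, hab, k, hk1, hk2⟩ := C.rank1 (V := ball w₀ ε ∩ up w₀.im) hw₀ hε hbsq hbS oV
    ((convex_ball _ _).inter (convex_up _)) inter_subset_left
    (fun hc => by
      have h3 : w₀.im < w₀.im := hc.2
      exact lt_irrefl _ h3) (half_up_nonempty isOpen_ball (mem_ball_self hε))
    (C.mono oV hVsub hg1) (C.mono oV hVsub hg1')
  refine ⟨a, b, hab, ε, hε, fun z => if z ∈ ball w₀ ε then k z else a • g z + b • g' z, ?_, ?_⟩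
  · have oS : IsOpen (sq C.R1 ∩ strip l₂ w₀ ε) := (isOpen_sq _).inter (isOpen_strip _ _ _)
    have hSsub : sq C.R1 ∩ strip l₂ w₀ ε ⊆ sq C.R1 ∩ up w₀.im :=
      fun z hz => ⟨hz.1, strip_up hz.2⟩
    refine C.local' (C.isOpen_regUp _ _ _) fun z hz => ?_
    rcases hz.2 with hz2 | hz2
    · refine ⟨sq C.R1 ∩ strip l₂ w₀ ε, oS, ⟨hz.1, hz2⟩, fun x hx => ⟨hx.1, Or.inl hx.2⟩, ?_⟩
      refine C.congr oS (C.comb a b oS (C.mono oS hSsub hg1) (C.mono oS hSsub hg1')) ?_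
      intro x hx
      by_cases hxb : x ∈ ball w₀ ε
      · simp only [if_pos hxb]
        exact (hk2 ⟨hxb, strip_up hx.2⟩).symm
      · simp only [if_neg hxb]
    · refine ⟨ball w₀ ε, isOpen_ball, hz2, fun x hx => ⟨hbsq hx, Or.inr hx⟩,
        C.congr isOpen_ball hk1 fun x hx => ?_⟩
      simp only [if_pos hx]
  · intro z hz
    have hzR : C.R0 < z.im := hz.2
    have hzb : z ∉ ball w₀ ε := fun hc => by
      have := (abs_lt.mp (hb hc).2.2).2
      linarith
    have hzann : z ∈ C.ann := ⟨hz.1.1, fun h3 => by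
      have := (abs_le.mp h3.2).2
      linarith⟩
    have hzup : z ∈ up w₀.im := by
      have := (abs_lt.mp hw₀S.2).2
      change w₀.im < z.im
      linarith
    simp only [if_neg hzb]
    rw [hg2 ⟨hzann, hzup⟩, hg2' ⟨hzann, hzup⟩]

end PlaneSys

end Pool.Agent.QC
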