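import Pool.Agent.QC.Plane.Basic

/-!
# MP_7c50a9_lc: the sweep (top-down extension)
-/

set_option autoImplicit false

open Set Metric Filter Topology

namespace Pool.Agent.QC

namespace PlaneSys

variable {F : Type*} [AddCommGroup F] [Module ℂ F] (C : PlaneSys F)

/-- The strip above `w`, of width `ε`, to the left (`lft = true`) or right of the vertical line
through `w`. -/
def strip (lft : Bool) (w : ℂ) (ε : ℝ) : Set ℂ :=
  match lft with
  | true => {z | w.re - ε < z.re ∧ z.re < w.re ∧ w.im < z.im}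
  | false => {z | w.re < z.re ∧ z.re < w.re + ε ∧ w.im < z.im}

/-- The strip above `w` on the given side, together with a disc around `w`. -/
def regUp (lft : Bool) (w : ℂ) (ε : ℝ) : Set ℂ :=
  sq C.R1 ∩ (strip lft w ε ∪ ball w ε)

/-- The top-down condition at `w`. -/
def PUp (lft : Bool) (J : ℂ → F) (w : ℂ) : Prop :=
  ∃ ε > 0, ∃ g, C.Sol (C.regUp lft w ε) g ∧ EqOn g J (C.regUp lft w ε ∩ up C.R0)

lemma isOpen_strip (lft : Bool) (w : ℂ) (ε : ℝ) : IsOpen (strip lft w ε) := by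
  cases lft
  · exact (isOpen_lt continuous_const Complex.continuous_re).inter
      ((isOpen_lt Complex.continuous_re continuous_const).inter
        (isOpen_lt continuous_const Complex.continuous_im))
  · exact (isOpen_lt continuous_const Complex.continuous_re).inter
      ((isOpen_lt Complex.continuous_re continuous_const).inter
        (isOpen_lt continuous_const Complex.continuous_im))

lemma convex_strip (lft : Bool) (w : ℂ) (ε : ℝ) : Convex ℝ (strip lft w ε) := by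
  cases lft
  · exact (convex_halfSpace_re_gt w.re).inter ((convex_halfSpace_re_lt (w.re + ε)).inter
      (convex_halfSpace_im_gt w.im))
  · exact (convex_halfSpace_re_gt (w.re - ε)).inter ((convex_halfSpace_re_lt w.re).inter
      (convex_halfSpace_im_gt w.im))

lemma strip_up {lft : Bool} {w z : ℂ} {ε : ℝ} (h : z ∈ strip lft w ε) : w.im < z.im := by
  cases lft
  · exact h.2.2
  · exact h.2.2

lemma strip_mono {lft : Bool} {w : ℂ} {ε δ : ℝ} (h : δ ≤ ε) : strip lft w δ ⊆ strip lft w ε := by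
  cases lft
  · rintro z ⟨h1, h2, h3⟩
    exact ⟨h1, by linarith, h3⟩
  · rintro z ⟨h1, h2, h3⟩
    exact ⟨by linarith, h2, h3⟩

lemma isOpen_regUp (lft : Bool) (w : ℂ) (ε : ℝ) : IsOpen (C.regUp lft w ε) :=
  (isOpen_sq _).inter ((isOpen_strip lft w ε).union isOpen_ball)

lemma regUp_mono {lft : Bool} {w : ℂ} {ε δ : ℝ} (h : δ ≤ ε) :
    C.regUp lft w δ ⊆ C.regUp lft w ε := by
  rintro z ⟨h1, h2 | h2⟩
  · exact ⟨h1, Or.inl (strip_mono h h2)⟩
  · exact ⟨h1, Or.inr (ball_subset_ball h h2)⟩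

/-- The condition for a smaller radius. -/
theorem PUp.small {lft : Bool} {J : ℂ → F} {w : ℂ} (h : C.PUp lft J w) :
    ∃ ε₀ > 0, ∀ ε, 0 < ε → ε ≤ ε₀ →
      ∃ g, C.Sol (C.regUp lft w ε) g ∧ EqOn g J (C.regUp lft w ε ∩ up C.R0) := by
  obtain ⟨ε₀, hε₀, g, h1, h2⟩ := h
  exact ⟨ε₀, hε₀, fun ε _ hε' => ⟨g, C.mono (C.isOpen_regUp lft w ε) (C.regUp_mono hε') h1,
    h2.mono (inter_subset_inter_left _ (C.regUp_mono hε'))⟩⟩

/-- Agreement on the top implies agreement outside the small square. -/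
theorem agree {J g : ℂ → F} {h0 : ℝ} (hJ : C.Sol C.ann J) (h1 : h0 < C.R1)
    (hg : C.Sol (sq C.R1 ∩ up h0) g) (h : EqOn g J (sq C.R1 ∩ up h0 ∩ up C.R0)) :
    EqOn g J ((sq C.R1 ∩ up h0) \ csq C.R0) := by
  have hR0 := C.hR0
  have hR := C.hR
  have oU : IsOpen (sq C.R1 ∩ up h0) := (isOpen_sq _).inter (isOpen_up _)
  have cU : Convex ℝ (sq C.R1 ∩ up h0) := (convex_sq _).inter (convex_up _)
  -- a general step
  have step : ∀ (A : Set ℂ), IsOpen A → Convex ℝ A → (sq C.R1 ∩ up h0 ∩ A ⊆ C.ann) →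
      ∀ V : Set ℂ, IsOpen V → V ⊆ sq C.R1 ∩ up h0 ∩ A → V.Nonempty → EqOn g J V →
      EqOn g J (sq C.R1 ∩ up h0 ∩ A) := by
    intro A hA1 hA2 hA3 V hV1 hV2 hV3 hV4
    exact C.uniqc (oU.inter hA1) (cU.inter hA2) (C.mono (oU.inter hA1) inter_subset_left hg)
      (C.mono (oU.inter hA1) hA3 hJ) hV1 hV2 hV3 hV4
  have hm : max h0 C.R0 < C.R1 := max_lt h1 hR
  obtain ⟨y, hy1, hy2⟩ := exists_between hm
  have hy0 : h0 < y := lt_of_le_of_lt (le_max_left _ _) hy1
  have hyR : C.R0 < y := lt_of_le_of_lt (le_max_right _ _) hy1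
  -- left
  have hleft : EqOn g J (sq C.R1 ∩ up h0 ∩ {z | z.re < -C.R0}) := by
    have oL : IsOpen {z : ℂ | z.re < -C.R0} := isOpen_lt Complex.continuous_re continuous_const
    refine step _ oL (convex_halfSpace_re_lt _) ?_
      (sq C.R1 ∩ up h0 ∩ {z | z.re < -C.R0} ∩ up C.R0) ((oU.inter oL).inter (isOpen_up _))
      inter_subset_left ?_ (fun z hz => h ⟨hz.1.1, hz.2⟩)
    · rintro z ⟨⟨h1, -⟩, h2⟩
      exact ⟨h1, fun h3 => by
        have := (abs_le.mp h3.1).1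
        have h2' : z.re < -C.R0 := h2
        linarith⟩
    · refine ⟨⟨-(C.R0 + C.R1) / 2, y⟩, ⟨⟨⟨?_, ?_⟩, ?_⟩, ?_⟩, ?_⟩
      · rw [abs_lt]; constructor <;> simp only <;> linarith
      · rw [abs_lt]; constructor <;> simp only <;> linarith
      · exact hy0
      · change -(C.R0 + C.R1) / 2 < -C.R0
        linarith
      · exact hyR
  have hright : EqOn g J (sq C.R1 ∩ up h0 ∩ {z | C.R0 < z.re}) := by
    have oL : IsOpen {z : ℂ | C.R0 < z.re} := isOpen_lt continuous_const Complex.continuous_re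
    refine step _ oL (convex_halfSpace_re_gt _) ?_
      (sq C.R1 ∩ up h0 ∩ {z | C.R0 < z.re} ∩ up C.R0) ((oU.inter oL).inter (isOpen_up _))
      inter_subset_left ?_ (fun z hz => h ⟨hz.1.1, hz.2⟩)
    · rintro z ⟨⟨h1, -⟩, h2⟩
      exact ⟨h1, fun h3 => by
        have := (abs_le.mp h3.1).2
        have h2' : C.R0 < z.re := h2
        linarith⟩
    · refine ⟨⟨(C.R0 + C.R1) / 2, y⟩, ⟨⟨⟨?_, ?_⟩, ?_⟩, ?_⟩, ?_⟩
      · rw [abs_lt]; constructor <;> simp only <;> linarith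
      · rw [abs_lt]; constructor <;> simp only <;> linarith
      · exact hy0
      · change C.R0 < (C.R0 + C.R1) / 2
        linarith
      · exact hyR
  have hbot : EqOn g J (sq C.R1 ∩ up h0 ∩ dn (-C.R0)) := by
    by_cases hb : h0 < -C.R0
    · obtain ⟨y', hy1', hy2'⟩ := exists_between (max_lt hb (by linarith : -C.R1 < -C.R0))
      have hy3' : h0 < y' := lt_of_le_of_lt (le_max_left _ _) hy1'
      have hy4' : -C.R1 < y' := lt_of_le_of_lt (le_max_right _ _) hy1'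
      have oL : IsOpen {z : ℂ | z.re < -C.R0} := isOpen_lt Complex.continuous_re continuous_const
      refine step _ (isOpen_dn _) (convex_dn _) ?_
        (sq C.R1 ∩ up h0 ∩ dn (-C.R0) ∩ {z | z.re < -C.R0})
        ((oU.inter (isOpen_dn _)).inter oL) inter_subset_left ?_
        (fun z hz => hleft ⟨hz.1.1, hz.2⟩)
      · rintro z ⟨⟨h1, -⟩, h2⟩
        exact ⟨h1, fun h3 => by
          have := (abs_le.mp h3.2).1
          have h2' : z.im < -C.R0 := h2
          linarith⟩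
      · refine ⟨⟨-(C.R0 + C.R1) / 2, y'⟩, ⟨⟨⟨?_, ?_⟩, ?_⟩, ?_⟩, ?_⟩
        · rw [abs_lt]; constructor <;> simp only <;> linarith
        · rw [abs_lt]; constructor <;> simp only <;> linarith
        · exact hy3'
        · exact hy2'
        · change -(C.R0 + C.R1) / 2 < -C.R0
          linarith
    · intro z hz
      have h2 : h0 < z.im := hz.1.2
      have h3 : z.im < -C.R0 := hz.2
      linarith
  rintro z ⟨hz, hz2⟩
  by_cases c1 : z.re < -C.R0
  · exact hleft ⟨hz, c1⟩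
  by_cases c2 : C.R0 < z.re
  · exact hright ⟨hz, c2⟩
  by_cases c3 : z.im < -C.R0
  · exact hbot ⟨hz, c3⟩
  by_cases c4 : C.R0 < z.im
  · exact h ⟨hz, c4⟩
  exact absurd ⟨abs_le.mpr ⟨by linarith, by linarith⟩, abs_le.mpr ⟨by linarith, by linarith⟩⟩ hz2

/-- Local extension at a regular point of the line. -/
theorem local_regular {U : Set ℂ} (hU : IsOpen U) (hUR : U ⊆ sq C.R1) {h : ℝ} {g' : ℂ → F}
    (hg' : C.Sol (U ∩ up h) g') {x : ℝ} (hx : (⟨x, h⟩ : ℂ) ∈ U) (hxS : (⟨x, h⟩ : ℂ) ∉ C.S) :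
    ∃ ε > 0, ball (⟨x, h⟩ : ℂ) ε ⊆ U ∧
      ∃ gz, C.Sol (ball (⟨x, h⟩ : ℂ) ε) gz ∧ EqOn gz g' (ball (⟨x, h⟩ : ℂ) ε ∩ up h) := by
  have h1 : IsOpen (U \ C.S) := hU.sdiff C.S_fin.isClosed
  obtain ⟨ε, hε, hsub⟩ := Metric.isOpen_iff.mp h1 _ ⟨hx, hxS⟩
  refine ⟨ε, hε, fun z hz => (hsub hz).1, ?_⟩
  have hne : (ball (⟨x, h⟩ : ℂ) ε ∩ up h).Nonempty :=
    half_up_nonempty (z := (⟨x, h⟩ : ℂ)) isOpen_ball (mem_ball_self hε)
  exact C.ext isOpen_ball (convex_ball _ _) (fun z hz => hUR (hsub hz).1)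
    (Set.disjoint_left.mpr fun z hz => (hsub hz).2) (isOpen_ball.inter (isOpen_up h))
    ((convex_ball _ _).inter (convex_up _)) inter_subset_left hne
    (C.mono (V := U ∩ up h) (isOpen_ball.inter (isOpen_up h))
      (fun z hz => ⟨(hsub hz.1).1, hz.2⟩) hg')

/-- Local extension at a point where the top-down condition holds. -/
theorem local_PUp {lft : Bool} {U : Set ℂ} (hU : IsOpen U) {J g' : ℂ → F} {w : ℂ}
    (hg' : C.Sol (sq C.R1 ∩ up w.im) g') (hgJ : EqOn g' J (sq C.R1 ∩ up w.im ∩ up C.R0))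
    (hw : w ∈ U) (hUR : U ⊆ sq C.R1) (hP : C.PUp lft J w) :
    ∃ ε > 0, ball w ε ⊆ U ∧ ∃ gz, C.Sol (ball w ε) gz ∧ EqOn gz g' (ball w ε ∩ up w.im) := by
  obtain ⟨ε₀, hε₀, hP⟩ := PUp.small C hP
  obtain ⟨ε₁, hε₁, hsub⟩ := Metric.isOpen_iff.mp hU _ hw
  set ε := min ε₀ ε₁ with hε
  have hεp : 0 < ε := lt_min hε₀ hε₁
  obtain ⟨g, hg1, hg2⟩ := hP ε hεp (min_le_left _ _)
  have hb : ball w ε ⊆ U := (ball_subset_ball (min_le_right _ _)).trans hsub
  have hbR : ball w ε ⊆ C.regUp lft w ε := fun z hz => ⟨hUR (hb hz), Or.inr hz⟩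
  refine ⟨ε, hεp, hb, g, C.mono isOpen_ball hbR hg1, ?_⟩
  have hwR := hUR hw
  have hwre := abs_lt.mp hwR.1
  have hwim := abs_lt.mp hwR.2
  -- agreement on the strip
  set T : Set ℂ := strip lft w ε with hT
  have oT : IsOpen (sq C.R1 ∩ T) := (isOpen_sq _).inter (isOpen_strip lft w ε)
  have cT : Convex ℝ (sq C.R1 ∩ T) := (convex_sq _).inter (convex_strip lft w ε)
  have hTsub : sq C.R1 ∩ T ⊆ C.regUp lft w ε := fun z hz => ⟨hz.1, Or.inl hz.2⟩
  have hTup : sq C.R1 ∩ T ⊆ sq C.R1 ∩ up w.im := fun z hz => ⟨hz.1, strip_up hz.2⟩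
  obtain ⟨a, ha1, ha2, ha3⟩ : ∃ a, -C.R1 < a ∧ a < C.R1 ∧
      ∀ y, w.im < y → (⟨a, y⟩ : ℂ) ∈ T := by
    rcases lft with _ | _
    · obtain ⟨a, ha1, ha2⟩ := exists_between (lt_min (by linarith : w.re < w.re + ε) hwre.2)
      have ha3 : a < w.re + ε := lt_of_lt_of_le ha2 (min_le_left _ _)
      have ha4 : a < C.R1 := lt_of_lt_of_le ha2 (min_le_right _ _)
      exact ⟨a, by linarith, ha4, fun y hy => ⟨ha1, ha3, hy⟩⟩
    · obtain ⟨a, ha1, ha2⟩ := exists_between (max_lt (by linarith : w.re - ε < w.re) hwre.1)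
      have ha3 : w.re - ε < a := lt_of_le_of_lt (le_max_left _ _) ha1
      have ha4 : -C.R1 < a := lt_of_le_of_lt (le_max_right _ _) ha1
      exact ⟨a, ha4, by linarith, fun y hy => ⟨ha3, ha2, hy⟩⟩
  have hst : EqOn g g' (sq C.R1 ∩ T) := by
    refine C.uniqc oT cT (C.mono oT hTsub hg1) (C.mono oT hTup hg')
      (V := sq C.R1 ∩ T ∩ up C.R0) (oT.inter (isOpen_up _)) inter_subset_left ?_ ?_
    · obtain ⟨y, hy1, hy2⟩ := exists_between (max_lt hwim.2 C.hR)
      have hy3 : w.im < y := lt_of_le_of_lt (le_max_left _ _) hy1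
      have hy4 : C.R0 < y := lt_of_le_of_lt (le_max_right _ _) hy1
      have := C.hR0
      refine ⟨⟨a, y⟩, ⟨⟨?_, ?_⟩, ha3 y hy3⟩, hy4⟩
      · exact abs_lt.mpr ⟨ha1, ha2⟩
      · exact abs_lt.mpr ⟨by simp only; linarith, hy2⟩
    · intro z hz
      rw [hg2 ⟨hTsub hz.1, hz.2⟩, hgJ ⟨hTup hz.1, hz.2⟩]
  -- agreement on the half disc
  refine C.uniqc (isOpen_ball.inter (isOpen_up _)) ((convex_ball _ _).inter (convex_up _))
    (C.mono (isOpen_ball.inter (isOpen_up _)) (inter_subset_left.trans hbR) hg1)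
    (C.mono (V := sq C.R1 ∩ up w.im) (isOpen_ball.inter (isOpen_up _))
      (fun z hz => ⟨hUR (hb hz.1), hz.2⟩) hg')
    (V := ball w ε ∩ up w.im ∩ T) ((isOpen_ball.inter (isOpen_up _)).inter (isOpen_strip lft w ε))
    inter_subset_left ?_ ?_
  · obtain ⟨s, hs1, hs2⟩ : ∃ s : ℝ, |s| = ε / 4 ∧ w + ((s : ℝ) + (ε / 4 : ℝ) * Complex.I) ∈ T := by
      rcases lft with _ | _
      · refine ⟨ε / 4, abs_of_pos (by linarith), ?_⟩
        simp only [hT, strip, mem_ofPred_eq, Complex.add_im, Complex.add_re, Complex.mul_im,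
          Complex.mul_re, Complex.ofReal_re, Complex.I_im, Complex.ofReal_im, Complex.I_re]
        refine ⟨by linarith, by linarith, by linarith⟩
      · refine ⟨-(ε / 4), by rw [abs_neg, abs_of_pos (by linarith)], ?_⟩
        simp only [hT, strip, mem_ofPred_eq, Complex.add_im, Complex.add_re, Complex.mul_im,
          Complex.mul_re, Complex.ofReal_re, Complex.I_im, Complex.ofReal_im, Complex.I_re]
        refine ⟨by linarith, by linarith, by linarith⟩
    refine ⟨w + ((s : ℝ) + (ε / 4 : ℝ) * Complex.I), ⟨⟨?_, strip_up hs2⟩, hs2⟩⟩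
    rw [mem_ball, dist_eq_norm, add_sub_cancel_left]
    refine lt_of_le_of_lt (norm_add_le _ _) ?_
    rw [norm_mul, Complex.norm_real, Complex.norm_real, Complex.norm_I, mul_one,
      Real.norm_of_nonneg (by linarith : (0 : ℝ) ≤ ε / 4), Real.norm_eq_abs, hs1]
    linarith
  · intro z hz
    exact hst ⟨hUR (hb hz.1.1), hz.2⟩

/-- **The sweep**: if the top-down condition holds at all singular points above the height `h0`,
then the solution extends to the whole region above `h0`. -/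
theorem sweep {lft : Bool} {J : ℂ → F} (hJ : C.Sol C.ann J) (n : ℕ) : ∀ h0 : ℝ,
    (C.S ∩ up h0).ncard = n → (∀ w ∈ C.S, h0 < w.im → C.PUp lft J w) →
    ∃ g, C.Sol (sq C.R1 ∩ up h0) g ∧ EqOn g J ((sq C.R1 ∩ up h0) \ csq C.R0) := by
  have hR0 := C.hR0
  have hR := C.hR
  induction n using Nat.strong_induction_on with
  | _ n ih =>
  intro h0 hn hP
  by_cases htop : C.R1 ≤ h0
  · refine ⟨J, C.mono (V := C.ann) ((isOpen_sq _).inter (isOpen_up _)) ?_ hJ, fun _ _ => rfl⟩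
    rintro z ⟨h1, h2⟩
    have h3 := (abs_lt.mp h1.2).2
    have h4 : h0 < z.im := h2
    linarith
  push Not at htop
  have oU : IsOpen (sq C.R1 ∩ up h0) := (isOpen_sq _).inter (isOpen_up _)
  have cU : Convex ℝ (sq C.R1 ∩ up h0) := (convex_sq _).inter (convex_up _)
  have hfin : (C.S ∩ up h0).Finite := C.S_fin.inter_of_left _
  by_cases hemp : C.S ∩ up h0 = ∅
  · -- no singular point: extend from the top
    obtain ⟨y, hy1, hy2⟩ := exists_between (max_lt htop hR)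
    have hy3 : h0 < y := lt_of_le_of_lt (le_max_left _ _) hy1
    have hy4 : C.R0 < y := lt_of_le_of_lt (le_max_right _ _) hy1
    obtain ⟨g, hg1, hg2⟩ := C.ext (U := sq C.R1 ∩ up h0) (V := sq C.R1 ∩ up h0 ∩ up C.R0)
      (g := J) oU cU inter_subset_left (Set.disjoint_left.mpr fun z hz hzS => by
        have : z ∈ C.S ∩ up h0 := ⟨hzS, hz.2⟩
        rw [hemp] at this
        exact this) (oU.inter (isOpen_up _)) (cU.inter (convex_up _)) inter_subset_left
      ⟨⟨0, y⟩, ⟨⟨by simp; linarith, abs_lt.mpr ⟨by simp only; linarith, hy2⟩⟩, hy3⟩, hy4⟩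
      (C.mono (V := C.ann) (oU.inter (isOpen_up _)) (fun z hz => ⟨hz.1.1, fun h3 => by
        have h4 := (abs_le.mp h3.2).2
        have h5 : C.R0 < z.im := hz.2
        linarith⟩) hJ)
    exact ⟨g, hg1, C.agree hJ htop hg1 hg2⟩
  · -- the lowest singular height above h0
    have hne : (C.S ∩ up h0).Nonempty := nonempty_iff_ne_empty.mpr hemp
    obtain ⟨w₀, hw₀, hmin⟩ := hfin.exists_minimalFor (fun z : ℂ => z.im) _ hne
    have hmin' : ∀ w ∈ C.S, h0 < w.im → w₀.im ≤ w.im := by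
      intro w hw hwh
      by_contra hlt
      push Not at hlt
      exact absurd (hmin ⟨hw, hwh⟩ hlt.le) (not_le.mpr hlt)
    set h' := w₀.im with hh'
    have hh0 : h0 < h' := hw₀.2
    have hw₀S := C.S_sub w₀ hw₀.1
    have hh'R : |h'| < C.R0 := hw₀S.2
    have hh'1 := abs_lt.mp hh'R
    obtain ⟨g', hg'1, hg'2⟩ := ih ((C.S ∩ up h').ncard) (by
      rw [← hn]
      refine Set.ncard_lt_ncard ⟨fun z hz => ⟨hz.1, lt_trans hh0 hz.2⟩, fun hsub => ?_⟩ hfin
      have := hsub hw₀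
      have h6 : h' < w₀.im := this.2
      exact lt_irrefl _ h6) h' rfl (fun w hw hwh => hP w hw (hh0.trans hwh))
    -- the lower strip
    set Lo : Set ℂ := sq C.R1 ∩ up h0 ∩ dn h' with hLo
    have oLo : IsOpen Lo := oU.inter (isOpen_dn _)
    have cLo : Convex ℝ Lo := cU.inter (convex_dn _)
    have oL : IsOpen {z : ℂ | z.re < -C.R0} := isOpen_lt Complex.continuous_re continuous_const
    have hLoS : Disjoint Lo C.S := Set.disjoint_left.mpr fun z hz hzS => by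
      have h1 := hmin' z hzS hz.1.2
      have h2 : z.im < h' := hz.2
      linarith
    obtain ⟨y, hy1, hy2⟩ := exists_between (max_lt hh0 (by linarith : -C.R1 < h'))
    have hy3 : h0 < y := lt_of_le_of_lt (le_max_left _ _) hy1
    have hy4 : -C.R1 < y := lt_of_le_of_lt (le_max_right _ _) hy1
    obtain ⟨gL, hgL1, hgL2⟩ := C.ext (U := Lo) (V := Lo ∩ {z | z.re < -C.R0}) (g := J) oLo cLo
      (fun z hz => hz.1.1) hLoS (oLo.inter oL) (cLo.inter (convex_halfSpace_re_lt _))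
      inter_subset_left
      ⟨⟨-(C.R0 + C.R1) / 2, y⟩, ⟨⟨⟨abs_lt.mpr ⟨by simp only; linarith, by simp only; linarith⟩,
        abs_lt.mpr ⟨hy4, by simp only; linarith⟩⟩, hy3⟩, hy2⟩, by
          change -(C.R0 + C.R1) / 2 < -C.R0
          linarith⟩
      (C.mono (V := C.ann) (oLo.inter oL) (fun z hz => ⟨hz.1.1.1, fun h3 => by
        have h4 := (abs_le.mp h3.1).1
        have h5 : z.re < -C.R0 := hz.2
        linarith⟩) hJ)
    have hUsub : sq C.R1 ∩ up h0 ⊆ sq C.R1 := inter_subset_left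
    have hg'U : C.Sol (sq C.R1 ∩ up h0 ∩ up h') g' :=
      C.mono (V := sq C.R1 ∩ up h') (oU.inter (isOpen_up _)) (fun z hz => ⟨hz.1.1, hz.2⟩) hg'1
    have hg'top : EqOn g' J (sq C.R1 ∩ up h' ∩ up C.R0) := fun z hz => hg'2 ⟨hz.1, fun h3 => by
      have h4 := (abs_le.mp h3.2).2
      have h5 : C.R0 < z.im := hz.2
      linarith⟩
    -- all points of the line have the full extension property
    have hfull : ∀ x ∈ Ioo (-C.R1) C.R1, C.Full (sq C.R1 ∩ up h0) h' g' gL x := by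
      refine C.full_of_full (x₀ := -(C.R0 + C.R1) / 2) hgL1 ?_ ⟨by linarith, by linarith⟩ ?_
      · intro x hx
        have hxU : (⟨x, h'⟩ : ℂ) ∈ sq C.R1 ∩ up h0 :=
          ⟨⟨abs_lt.mpr hx, by simp only; linarith⟩, hh0⟩
        by_cases hxS : (⟨x, h'⟩ : ℂ) ∈ C.S
        · exact C.local_PUp oU (w := (⟨x, h'⟩ : ℂ)) hg'1 hg'top hxU hUsub (hP _ hxS hh0)
        · exact C.local_regular oU hUsub hg'U hxU hxS
      · -- far to the left
        have h1 : IsOpen (sq C.R1 ∩ up h0 ∩ {z | z.re < -C.R0}) := oU.inter oL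
        have h2 : (⟨-(C.R0 + C.R1) / 2, h'⟩ : ℂ) ∈ sq C.R1 ∩ up h0 ∩ {z | z.re < -C.R0} :=
          ⟨⟨⟨abs_lt.mpr ⟨by simp only; linarith, by simp only; linarith⟩, by simp only; linarith⟩,
            hh0⟩, by change -(C.R0 + C.R1) / 2 < -C.R0; linarith⟩
        obtain ⟨ε, hε, hsub⟩ := Metric.isOpen_iff.mp h1 _ h2
        have hann : ball (⟨-(C.R0 + C.R1) / 2, h'⟩ : ℂ) ε ⊆ C.ann := fun z hz =>
          ⟨(hsub hz).1.1, fun h3 => by
            have h4 := (abs_le.mp h3.1).1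
            have h5 : z.re < -C.R0 := (hsub hz).2
            linarith⟩
        refine ⟨ε, hε, fun z hz => (hsub hz).1, J, C.mono isOpen_ball hann hJ, ?_, ?_⟩
        · intro z hz
          exact (hg'2 ⟨⟨(hsub hz.1).1.1, hz.2⟩, (hann hz.1).2⟩).symm
        · intro z hz
          exact (hgL2 ⟨⟨(hsub hz.1).1, hz.2⟩, (hsub hz.1).2⟩).symm
    obtain ⟨g, hg1, hg2, hg3⟩ := C.glue_line oU hg'U hgL1 (fun z hz hzh => by
      have h1 : z = (⟨z.re, h'⟩ : ℂ) := Complex.ext rfl hzh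
      obtain ⟨ε, hε, h2⟩ := hfull z.re (abs_lt.mp hz.1.1)
      rw [← h1] at h2
      exact ⟨ε, hε, h2⟩)
    refine ⟨g, hg1, C.agree hJ htop hg1 ?_⟩
    intro z hz
    have hzh : z ∈ up h' := by
      have h5 : C.R0 < z.im := hz.2
      change h' < z.im
      linarith
    rw [hg2 ⟨hz.1, hzh⟩]
    exact hg'top ⟨⟨hz.1.1, hzh⟩, hz.2⟩

end PlaneSys

end Pool.Agent.QC
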